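import Pool.Agent.Lib.MP_2619d0_ag.Q9.C1
import Pool.Agent.Lib.MP_2619d0_ag.Q3.Spec
import Pool.Agent.Lib.MP_2619d0_ag.Q3.Final

/-!
# Rational plane curves over `L` through an odd generic point
-/

set_option autoImplicit false

namespace MP2619.PC

universe u

open MvPolynomial Pool.Agent.Lib.MP_2619d0_ag Pool.Agent.Lib.MP_2619d0_ag.T MP2619.T MP2619.R
  MP2619.CUB MP2619.Q3 MP2619.Q9

variable {m : ℕ} {F : MvPolynomial (Fin (m+1+1)) ℂ} {L : Type u} [Field L] [Algebra ℂ L]

theorem fc_eval {k : Type*} [Field k] [Algebra ℂ k] {n : ℕ} {G : MvPolynomial (Fin n) ℂ} {N : ℕ}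
    (φ : Fin n → MvPolynomial (Fin N) k) (h0 : aeval φ G = 0) (p : Fin N → k) :
    aeval (fun j => aeval p (φ j)) G = 0 := by
  have h1 : aeval (fun j => aeval p (φ j)) G =
      ((MvPolynomial.aeval p : MvPolynomial (Fin N) k →ₐ[k] k).restrictScalars ℂ)
        (aeval φ G) := by
    rw [MvPolynomial.comp_aeval_apply]
    rfl
  rw [h1, h0, map_zero]

/-- Forms of degree two over `L` in any number of variables. -/
theorem quad2_par (hm : 1 ≤ m) (hF : VG F) (hNS : MP2619.N.NoSum.{u} F) {N : ℕ}
    (φ : Fin (m+1+1) → MvPolynomial (Fin N) L) (hφ : ∀ j, (φ j).IsHomogeneous 2)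
    (h0 : aeval φ F = 0) (p q : Fin N → L) (hx : OP F (fun j => aeval p (φ j)))
    (hw : (fun j => aeval q (φ j)) ≠ 0) : OP F (fun j => aeval q (φ j)) := by
  refine (conic_par' hm hF hNS (fun j => aeval q (φ j)) (fun j => aeval p (Bf (φ j) q))
    (fun j => aeval p (φ j)) hx fun s => ?_).1 hw
  have h1 := fc_eval φ h0 (fun i => s * q i + p i)
  refine Eq.trans ?_ h1
  congr 1
  congr 1
  funext j
  have h2 := quad_expand (A := L) (hφ j) q p s
  simp only [Algebra.algebraMap_self, RingHom.id_apply] at h2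
  rw [h2]
  rfl

/-- Forms of degree at most two over `L` in any number of variables. -/
theorem quad_par (hm : 1 ≤ m) (hF : VG F) (hNS : MP2619.N.NoSum.{u} F) {N e : ℕ} (he : e ≤ 2)
    (φ : Fin (m+1+1) → MvPolynomial (Fin N) L) (hφ : ∀ j, (φ j).IsHomogeneous e)
    (h0 : aeval φ F = 0) (p q : Fin N → L) (hx : OP F (fun j => aeval p (φ j)))
    (hw : (fun j => aeval q (φ j)) ≠ 0) : OP F (fun j => aeval q (φ j)) := by
  classical
  have hinf : Infinite L := Infinite.of_injective _ (algebraMap ℂ L).injective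
  have hx0 := hx.ne_zero hF
  by_cases he0 : e = 0
  · subst he0
    have h1 : (fun j => aeval q (φ j)) = fun j => aeval p (φ j) := by
      funext j
      have h2 := (totalDegree_eq_zero_iff_eq_C).1 (Nat.le_zero.1 (hφ j).totalDegree_le)
      rw [h2, aeval_C, aeval_C]
    rw [h1]
    exact hx
  -- a linear form which does not vanish at `p` and `q`
  have hpn : p ≠ 0 := by
    rintro rfl
    apply hx0
    funext j
    have h2 : aeval (0 : Fin N → L) (φ j) = constantCoeff (φ j) := by
      rw [MvPolynomial.aeval_zero]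
      rfl
    rw [h2]
    exact (hφ j).coeff_eq_zero (by simpa using Ne.symm he0)
  have hqn : q ≠ 0 := by
    rintro rfl
    apply hw
    funext j
    have h2 : aeval (0 : Fin N → L) (φ j) = constantCoeff (φ j) := by
      rw [MvPolynomial.aeval_zero]
      rfl
    rw [h2]
    exact (hφ j).coeff_eq_zero (by simpa using Ne.symm he0)
  obtain ⟨i, hi⟩ := Function.ne_iff.1 hpn
  obtain ⟨k, hk⟩ := Function.ne_iff.1 hqn
  obtain ⟨t, ht1, ht2⟩ : ∃ t : L, p i + t * p k ≠ 0 ∧ q i + t * q k ≠ 0 := by
    by_cases h1 : q i = 0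
    · by_cases h2 : p i + p k = 0
      · refine ⟨2, fun h => ?_, ?_⟩
        · apply hi
          have h3 : p k = 0 := by linear_combination h - h2
          rw [h3, add_zero] at h2
          exact h2
        · rw [h1, zero_add]
          have hc : CharZero L := charZero_of_injective_algebraMap (algebraMap ℂ L).injective
          exact mul_ne_zero two_ne_zero hk
      · refine ⟨1, by rwa [one_mul], ?_⟩
        rw [h1, zero_add, one_mul]
        exact hk
    · exact ⟨0, by rwa [zero_mul, add_zero], by rwa [zero_mul, add_zero]⟩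
  obtain ⟨l, hl⟩ : ∃ l : MvPolynomial (Fin N) L, l = X i + C t * X k := ⟨_, rfl⟩
  have hlh : l.IsHomogeneous 1 := by
    rw [hl]
    refine (isHomogeneous_X L i).add ?_
    have h1 := (isHomogeneous_C (Fin N) t).mul (isHomogeneous_X L k)
    rwa [zero_add] at h1
  have hlp : aeval p l ≠ 0 := by
    rw [hl]
    simpa using ht1
  have hlq : aeval q l ≠ 0 := by
    rw [hl]
    simpa using ht2
  have e1 : (fun j => aeval p (l ^ (2 - e) * φ j)) = (aeval p l) ^ (2 - e) • fun j => aeval p (φ j) := by
    funext j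
    rw [map_mul, map_pow]
    rfl
  have e2 : (fun j => aeval q (l ^ (2 - e) * φ j)) = (aeval q l) ^ (2 - e) • fun j => aeval q (φ j) := by
    funext j
    rw [map_mul, map_pow]
    rfl
  have h3 := quad2_par hm hF hNS (fun j => l ^ (2 - e) * φ j) (fun j => by
      have h2 := (hlh.pow (2 - e)).mul (hφ j)
      have h3 : 1 * (2 - e) + e = 2 := by omega
      rwa [h3] at h2) (by
      have h2 := aeval_smul_hom hF.1 (l ^ (2 - e)) φ
      exact h2.trans (by rw [h0, mul_zero])) p q
    (by
      rw [e1]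
      exact hx.smul _ (pow_ne_zero _ hlp))
    (by
      rw [e2]
      intro h
      rcases smul_eq_zero.1 h with h | h
      · exact pow_ne_zero _ hlq h
      · exact hw h)
  rw [e2] at h3
  have h4 := h3.smul ((aeval q l ^ (2 - e))⁻¹) (inv_ne_zero (pow_ne_zero _ hlq))
  rwa [smul_smul, inv_mul_cancel₀ (pow_ne_zero _ hlq), one_smul] at h4

end MP2619.PC
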