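import Pool.Agent.Lib.MP_2619d0_ag.PC.P9

/-!
# Rational curves of any degree without triple zeros in the limits: the parity
-/

set_option autoImplicit false

namespace MP2619.PC

universe u

open MvPolynomial Pool.Agent.Lib.MP_2619d0_ag Pool.Agent.Lib.MP_2619d0_ag.T MP2619.T MP2619.R
  MP2619.CUB MP2619.Q3 MP2619.Q9

/-- The statement of Theorem U2 (the parity of the degree at a point and at infinity of a family of rational
curves). -/
def U2 {n : ℕ} (F : MvPolynomial (Fin n) ℂ) : Prop :=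
  ∀ (L : Type u) [Field L] [Algebra ℂ L] (e : ℕ) (C : Fin n → Polynomial L),
    (∀ i, (C i).natDegree ≤ e) → aeval C F = 0 → MP2619.Q6.NTC e C →
      ∀ h : L, (∃ i, (C i).eval h ≠ 0) → (∃ i, (C i).coeff e ≠ 0) →
        (OP F (fun i => (C i).eval h) ↔ OP F (fun i => (C i).coeff e))

theorem eval_nf {R : Type*} [CommRing R] {e : ℕ} (v : Fin (e + 1) → R) (p : Fin 2 → R) :
    eval p (nf v) = ∑ k, v k * (p 0 ^ (e - (k : ℕ)) * p 1 ^ (k : ℕ)) := by
  unfold nf
  rw [map_sum]
  refine Finset.sum_congr rfl fun k _ => ?_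
  rw [map_mul, map_mul, map_pow, map_pow, eval_C, eval_X, eval_X]

/-- the polynomial `f(X, 1 + t X)` of the binary form `f` with the coefficients `v` -/
noncomputable def dh1 {R : Type*} [CommRing R] {e : ℕ} (t : R) (v : Fin (e + 1) → R) :
    Polynomial R :=
  ∑ k, Polynomial.C (v k) * (Polynomial.X ^ (e - (k : ℕ)) *
    (1 + Polynomial.C t * Polynomial.X) ^ (k : ℕ))

section

variable {R : Type*} [CommRing R] {e : ℕ} (t : R) (v : Fin (e + 1) → R)

theorem dh1_eval (h : R) : (dh1 t v).eval h = eval ![h, 1 + t * h] (nf v) := by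
  rw [eval_nf]
  unfold dh1
  rw [Polynomial.eval_finsetSum]
  refine Finset.sum_congr rfl fun k _ => ?_
  simp

theorem lin_deg : (1 + Polynomial.C t * Polynomial.X : Polynomial R).natDegree ≤ 1 := by
  refine (Polynomial.natDegree_add_le _ _).trans ?_
  rw [Polynomial.natDegree_one]
  refine max_le (by omega) ?_
  exact (Polynomial.natDegree_C_mul_le _ _).trans Polynomial.natDegree_X_le

theorem dh1_deg : (dh1 t v).natDegree ≤ e := by
  unfold dh1
  refine Polynomial.natDegree_sum_le_of_forall_le _ _ fun k _ => ?_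
  refine (Polynomial.natDegree_C_mul_le _ _).trans ?_
  refine (Polynomial.natDegree_mul_le).trans ?_
  have h1 := Polynomial.natDegree_X_pow_le (R := R) (e - (k : ℕ))
  have h2 : ((1 + Polynomial.C t * Polynomial.X : Polynomial R) ^ (k : ℕ)).natDegree ≤ k := by
    refine Polynomial.natDegree_pow_le.trans ?_
    have := Nat.mul_le_mul_left (k : ℕ) (lin_deg t)
    omega
  have := k.2
  omega

theorem dh1_coeff : (dh1 t v).coeff e = eval ![1, t] (nf v) := by
  rw [eval_nf]
  unfold dh1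
  rw [Polynomial.finsetSum_coeff]
  refine Finset.sum_congr rfl fun k _ => ?_
  rw [Polynomial.coeff_C_mul, Polynomial.coeff_X_pow_mul', if_pos (Nat.sub_le _ _)]
  have h1 : e - (e - (k : ℕ)) = (k : ℕ) * 1 := by
    have := k.2
    omega
  rw [h1, Polynomial.coeff_pow_of_natDegree_le (lin_deg t)]
  simp [Polynomial.coeff_one]

theorem dh1_hom : (dh1 t v).homogenize e = sh t (nf v) := by
  refine Polynomial.homogenize_eq_of_isHomogeneous (sh_hom t (nf_hom v)) ?_
  unfold nf dh1
  rw [map_sum, map_sum]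
  refine Finset.sum_congr rfl fun k _ => ?_
  have h1 : sh t (C (v k) * (X 0 ^ (e - (k : ℕ)) * X 1 ^ (k : ℕ))) =
      C (v k) * (X 0 ^ (e - (k : ℕ)) * (X 1 + C t * X 0) ^ (k : ℕ)) := by
    rw [map_mul, map_mul, map_pow, map_pow, sh_C, sh_0, sh_1]
  rw [h1, map_mul, map_mul, map_pow, map_pow, map_add, map_mul, aeval_X, aeval_X, aeval_C,
    aeval_C]
  rfl

end

theorem eval_smul_nf {R : Type*} [CommRing R] {e : ℕ} (v : Fin (e + 1) → R) (p : Fin 2 → R) (s : R) :
    eval (fun i => s * p i) (nf v) = s ^ e * eval p (nf v) := by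
  rw [eval_nf, eval_nf, Finset.mul_sum]
  refine Finset.sum_congr rfl fun k _ => ?_
  have h1 : s ^ e = s ^ (e - (k : ℕ)) * s ^ (k : ℕ) := by
    rw [← pow_add]
    congr 1
    have := k.2
    omega
  rw [h1, mul_pow, mul_pow]
  ring

/-- a non-zero polynomial in characteristic zero has a value different from zero at some natural number -/
theorem exists_nat {L : Type*} [Field L] [CharZero L] {P : Polynomial L} (hP : P ≠ 0) :
    ∃ k : ℕ, P.eval (k : L) ≠ 0 := by
  by_contra hcon
  push Not at hcon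
  apply hP
  refine Polynomial.eq_zero_of_infinite_isRoot P ?_
  refine Set.Infinite.mono ?_ (Set.infinite_range_of_injective (Nat.cast_injective (R := L)))
  rintro _ ⟨k, rfl⟩
  exact hcon k

section

variable {m : ℕ} {F : MvPolynomial (Fin (m+1+1)) ℂ} {L : Type u} [Field L] [Algebra ℂ L]

theorem lkN_iff (hU : U2.{u} F) {x w : Fin (m+1+1) → L} (h : LkN F x w) :
    OP F x ↔ OP F w := by
  classical
  have hcL : CharZero L := charZero_of_injective_algebraMap (algebraMap ℂ L).injective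
  obtain ⟨hx, hw, e, V, p, q, a, b, hN, h3, ha, hb, h4, h5⟩ := h
  have hsm : ∀ (y : Fin (m+1+1) → L) (c : L), c ≠ 0 → (OP F y ↔ OP F (fun j => c * y j)) := by
    intro y c hc
    have h6 : (fun j => c * y j) = c • y := rfl
    refine ⟨fun h => ?_, fun h => ?_⟩
    · rw [h6]
      exact h.smul c hc
    · rw [h6] at h
      have h7 := h.smul c⁻¹ (inv_ne_zero hc)
      rwa [smul_smul, inv_mul_cancel₀ hc, one_smul] at h7
  have e1 : (fun j => a * x j) = fun j => eval p (nf (V j)) := funext h4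
  have e2 : (fun j => b * w j) = fun j => eval q (nf (V j)) := funext h5
  rw [hsm x a ha, hsm w b hb, e1, e2]
  have hx' : ∃ j, eval p (nf (V j)) ≠ 0 := by
    obtain ⟨j, hj⟩ := Function.ne_iff.1 hx
    exact ⟨j, by rw [← h4]; exact mul_ne_zero ha hj⟩
  have hw' : ∃ j, eval q (nf (V j)) ≠ 0 := by
    obtain ⟨j, hj⟩ := Function.ne_iff.1 hw
    exact ⟨j, by rw [← h5]; exact mul_ne_zero hb hj⟩
  rcases Nat.eq_zero_or_pos e with he | he
  · subst he
    have h6 : (fun j => eval p (nf (V j))) = fun j => eval q (nf (V j)) := by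
      funext j
      rw [eval_nf, eval_nf]
      refine Finset.sum_congr rfl fun k _ => ?_
      have hk : (k : ℕ) = 0 := by
        have := k.2
        omega
      rw [hk]
      simp
    rw [h6]
  -- the vectors are not zero
  have hne : ∀ p : Fin 2 → L, (∃ j, eval p (nf (V j)) ≠ 0) → p ≠ 0 := by
    rintro p ⟨j, hj⟩ rfl
    apply hj
    rw [eval_nf]
    refine Finset.sum_eq_zero fun k _ => ?_
    by_cases hk : (k : ℕ) = 0
    · rw [hk]
      simp only [Pi.zero_apply]
      rw [Nat.sub_zero, zero_pow he.ne']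
      ring
    · simp only [Pi.zero_apply]
      rw [zero_pow hk]
      ring
  obtain ⟨j0, hj0⟩ := hx'
  have hV0 : V j0 ≠ 0 := by
    intro h
    apply hj0
    rw [nf_eq_zero.2 h, map_zero]
  obtain ⟨P, hP⟩ : ∃ P : Polynomial L, P = ∑ k : Fin (e + 1), Polynomial.C (V j0 k) *
      Polynomial.X ^ (k : ℕ) := ⟨_, rfl⟩
  have hPe : ∀ s : L, P.eval s = eval ![1, s] (nf (V j0)) := by
    intro s
    rw [hP, eval_nf, Polynomial.eval_finsetSum]
    refine Finset.sum_congr rfl fun k _ => ?_
    simp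
  have hP0 : P ≠ 0 := by
    intro h
    apply hV0
    funext k
    have h6 := congrArg (fun Q => Polynomial.coeff Q (k : ℕ)) h
    simp only [hP, Polynomial.finsetSum_coeff, Polynomial.coeff_C_mul,
      Polynomial.coeff_X_pow, Polynomial.coeff_zero] at h6
    rw [Finset.sum_eq_single k] at h6
    · simpa using h6
    · intro k' _ hk'
      rw [if_neg (fun h => hk' (Fin.ext h.symm)), mul_zero]
    · intro h
      exact absurd (Finset.mem_univ _) h
  have hlin : ∀ p : Fin 2 → L, p ≠ 0 →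
      (Polynomial.C (p 1) - Polynomial.C (p 0) * Polynomial.X : Polynomial L) ≠ 0 := by
    intro p hp h
    apply hp
    have h6 := congrArg (fun Q => Polynomial.coeff Q 0) h
    have h7 := congrArg (fun Q => Polynomial.coeff Q 1) h
    simp [Polynomial.coeff_X, Polynomial.coeff_C] at h6 h7
    funext i
    fin_cases i
    · exact h7
    · exact h6
  obtain ⟨k, hk⟩ := exists_nat (mul_ne_zero (mul_ne_zero hP0 (hlin p (hne p ⟨j0, hj0⟩)))
    (hlin q (hne q hw')))
  rw [Polynomial.eval_mul, Polynomial.eval_mul] at hk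
  obtain ⟨hk1, hk3⟩ := mul_ne_zero_iff.1 hk
  obtain ⟨hk1, hk2⟩ := mul_ne_zero_iff.1 hk1
  rw [hPe] at hk1
  simp only [Polynomial.eval_sub, Polynomial.eval_C, Polynomial.eval_mul, Polynomial.eval_X]
    at hk2 hk3
  obtain ⟨t, ht⟩ : ∃ t : L, t = (k : L) := ⟨_, rfl⟩
  rw [← ht] at hk1 hk2 hk3
  have htc : algebraMap ℂ L (-(k : ℂ)) = -t := by
    rw [map_neg, map_natCast, ht]
  -- the family
  obtain ⟨C', hC'⟩ : ∃ C' : Fin (m+1+1) → Polynomial L, C' = fun j => dh1 t (V j) := ⟨_, rfl⟩
  have hC0 : aeval C' F = 0 := by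
    have h6 := MvPolynomial.comp_aeval_apply (R := ℂ) (fun j => nf (V j))
      ((aeval ![(Polynomial.X : Polynomial L), 1 + Polynomial.C t * Polynomial.X] :
        MvPolynomial (Fin 2) L →ₐ[L] Polynomial L).restrictScalars ℂ) F
    rw [h3, map_zero] at h6
    have h7 : (fun j => ((aeval ![(Polynomial.X : Polynomial L), 1 + Polynomial.C t *
        Polynomial.X] : MvPolynomial (Fin 2) L →ₐ[L] Polynomial L).restrictScalars ℂ)
        (nf (V j))) = C' := by
      funext j
      rw [hC']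
      simp only [AlgHom.restrictScalars_apply]
      unfold nf dh1
      rw [map_sum]
      refine Finset.sum_congr rfl fun k _ => ?_
      rw [map_mul, map_mul, map_pow, map_pow, aeval_X, aeval_X, aeval_C]
      rfl
    rw [h7] at h6
    exact h6.symm
  have hNT : MP2619.Q6.NTC e C' := by
    refine ntc_of V hN (-(k : ℂ)) C' fun j => ?_
    rw [htc, hC', dh1_hom, sh_sh]
  have key : ∀ p : Fin 2 → L, (∃ j, eval p (nf (V j)) ≠ 0) → p 1 - p 0 * t ≠ 0 →
      (OP F (fun j => eval p (nf (V j))) ↔ OP F (fun i => (C' i).coeff e)) := by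
    intro p hp hpt
    obtain ⟨s, hs⟩ : ∃ s, s = p 1 - p 0 * t := ⟨_, rfl⟩
    rw [← hs] at hpt
    obtain ⟨h, hh⟩ : ∃ h, h = p 0 / s := ⟨_, rfl⟩
    have hp1 : p = fun i => s * (![h, 1 + t * h] : Fin 2 → L) i := by
      funext i
      fin_cases i
      · change p 0 = s * h
        rw [hh, mul_div_cancel₀ _ hpt]
      · change p 1 = s * (1 + t * h)
        rw [hh]
        field_simp
        rw [hs]
        ring
    have hev : ∀ j, eval p (nf (V j)) = s ^ e * (C' j).eval h := by
      intro j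
      rw [hC']
      simp only
      rw [dh1_eval]
      conv_lhs => rw [hp1]
      rw [eval_smul_nf]
    have h6 := hU L e C' (fun j => by rw [hC']; exact dh1_deg t (V j)) hC0 hNT h (by
      obtain ⟨j, hj⟩ := hp
      refine ⟨j, fun h0 => hj ?_⟩
      rw [hev, h0, mul_zero]) ⟨j0, by
        rw [hC']
        simp only
        rw [dh1_coeff]
        exact hk1⟩
    rw [← h6, hsm (fun i => (C' i).eval h) (s ^ e) (pow_ne_zero _ hpt)]
    have h7 : (fun j => eval p (nf (V j))) = fun j => s ^ e * (C' j).eval h := funext hev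
    rw [h7]
  rw [key p ⟨j0, hj0⟩ hk2, key q hw' hk3]

theorem lkN_par (hU : U2.{u} F) {x w : Fin (m+1+1) → L} (h : LkN F x w)
    (hO : OP F x) : OP F w := (lkN_iff hU h).1 hO

end

open Classical in
/-- the variable of a coefficient -/
noncomputable def fj {n : ℕ} (e : ℕ) (jc : Fin n × (Fin 2 →₀ ℕ)) :
    MvPolynomial (Fin n × Fin (e + 1)) ℂ :=
  if h : ∃ k : Fin (e + 1), nexp e k = jc.2 then X (jc.1, h.choose) else 0

theorem fj_hom {n e : ℕ} (jc : Fin n × (Fin 2 →₀ ℕ)) : (fj e jc).IsHomogeneous 1 := by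
  unfold fj
  split_ifs with h
  · exact isHomogeneous_X ℂ _
  · exact isHomogeneous_zero _ _ _

theorem fj_eval {n e : ℕ} {K : Type*} [Field K] [Algebra ℂ K] (W : Fin n → Fin (e + 1) → K)
    (jc : Fin n × (Fin 2 →₀ ℕ)) :
    aeval (fun jk : Fin n × Fin (e + 1) => W jk.1 jk.2) (fj e jc) = coeff jc.2 (nf (W jc.1)) := by
  unfold fj
  split_ifs with h
  · rw [aeval_X]
    have h2 := coeff_nf (W jc.1) h.choose
    rw [h.choose_spec] at h2
    exact h2.symm
  · rw [map_zero]
    by_contra hne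
    apply h
    have h2 : jc.2.degree = e := by
      by_contra h3
      exact hne ((nf_hom (W jc.1)).coeff_eq_zero h3).symm
    have h3 : jc.2 0 + jc.2 1 = e := by
      rw [← h2, Finsupp.degree_eq_sum, Fin.sum_univ_two]
    refine ⟨⟨jc.2 1, by omega⟩, ?_⟩
    ext i
    fin_cases i
    · change nexp e (jc.2 1) 0 = jc.2 0
      rw [nexp_0]
      omega
    · change nexp e (jc.2 1) 1 = jc.2 1
      rw [nexp_1]

/-- a rational curve given by binary forms -/
theorem lkN_of_forms {n : ℕ} {F : MvPolynomial (Fin n) ℂ} {L : Type u} [Field L] [Algebra ℂ L]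
    {e : ℕ} (φ : Fin n → MvPolynomial (Fin 2) L) (hφ : ∀ j, (φ j).IsHomogeneous e)
    (h0 : aeval φ F = 0)
    (hN : ∀ ψ : Fin n → MvPolynomial (Fin 2) ℂ, (∀ j, (ψ j).IsHomogeneous e) → ψ ≠ 0 →
      (∀ (g : MvPolynomial (Fin n × (Fin 2 →₀ ℕ)) ℂ) (d : ℕ), g.IsHomogeneous d →
        aeval (fun jc => coeff jc.2 (φ jc.1)) g = 0 →
          aeval (fun jc => coeff jc.2 (ψ jc.1)) g = 0) →
      ∀ l : MvPolynomial (Fin 2) ℂ, l.IsHomogeneous 1 → l ≠ 0 → ¬ ∀ j, l ^ 3 ∣ ψ j)
    (p q : Fin 2 → L) (hx : (fun j => eval p (φ j)) ≠ 0) (hw : (fun j => eval q (φ j)) ≠ 0) :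
    LkN F (fun j => eval p (φ j)) (fun j => eval q (φ j)) := by
  classical
  obtain ⟨V, hV⟩ : ∃ V : Fin n → Fin (e + 1) → L, V = fun j (k : Fin (e + 1)) =>
    coeff (nexp e k) (φ j) := ⟨_, rfl⟩
  have hnf : ∀ j, nf (V j) = φ j := fun j => by
    rw [hV]
    exact (eq_nf (hφ j)).symm
  have hnf' : (fun j => nf (V j)) = φ := funext hnf
  refine ⟨hx, hw, e, V, p, q, 1, 1, ?_, by rw [hnf']; exact h0, one_ne_zero, one_ne_zero,
    fun j => by rw [one_mul, hnf], fun j => by rw [one_mul, hnf]⟩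
  intro D hD hrel l hl hl0
  refine hN (fun j => nf (D j)) (fun j => nf_hom _) (fun h => hD ?_) (fun g d hg hg0 => ?_) l hl hl0
  · funext j
    exact nf_eq_zero.1 (congrFun h j)
  · have h1 : aeval (fun jk : Fin n × Fin (e + 1) => V jk.1 jk.2) (aeval (fj e) g) = 0 := by
      rw [MvPolynomial.comp_aeval_apply]
      have h2 : (fun jc : Fin n × (Fin 2 →₀ ℕ) =>
          aeval (fun jk : Fin n × Fin (e + 1) => V jk.1 jk.2) (fj e jc)) =
          fun jc => coeff jc.2 (φ jc.1) := by
        funext jc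
        rw [fj_eval, hnf]
      rw [h2]
      exact hg0
    have h2 := hrel (aeval (fj e) g) d (by
      have h3 := IsHomogeneous.aeval hg (fj e) (n := 1) fj_hom
      rwa [one_mul] at h3) h1
    rw [MvPolynomial.comp_aeval_apply] at h2
    have h3 : (fun jc : Fin n × (Fin 2 →₀ ℕ) =>
        aeval (fun jk : Fin n × Fin (e + 1) => D jk.1 jk.2) (fj e jc)) =
        fun jc => coeff jc.2 (nf (D jc.1)) := by
      funext jc
      rw [fj_eval]
    rw [h3] at h2
    exact h2

end MP2619.PC
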