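import Pool.Agent.Lib.MP_2619d0_ag.PC.P10
import Pool.Agent.Lib.MP_2619d0_ag.U.M

/-!
# Theorem U2
-/

set_option autoImplicit false

namespace MP2619.PC

universe u

open MvPolynomial Pool.Agent.Lib.MP_2619d0_ag Pool.Agent.Lib.MP_2619d0_ag.T MP2619.T MP2619.R
  MP2619.CUB MP2619.Q3 MP2619.Q9

theorem u2_holds {m : ℕ} (hm : 3 ≤ m) {F : MvPolynomial (Fin (m+1+1)) ℂ} (hF : VG F) :
    U2.{u} F := by
  obtain ⟨D, rfl⟩ : ∃ D, m = D + 2 := ⟨m - 2, by omega⟩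
  intro L _ _ e C h1 h2 h3 h h4 h5
  exact MP2619.Q6.u2_link (D := D) (by omega) hF e C h1 h2 h3 h h4 h5

end MP2619.PC
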