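import Pool.Agent.Lib.MP_2619d0_ag.PC.P1

/-!
# Rational plane cubics over `L` through an odd generic point
-/

set_option autoImplicit false

namespace MP2619.PC

universe u

open MvPolynomial Pool.Agent.Lib.MP_2619d0_ag Pool.Agent.Lib.MP_2619d0_ag.T MP2619.T MP2619.R
  MP2619.CUB MP2619.Q3 MP2619.Q9

/-- The identity of a plane cubic `q l + γ g` with the singular point `γ`. -/
theorem plane_id {E : Type*} [Field E] [Algebra ℂ E] {n : ℕ} {F : MvPolynomial (Fin n) ℂ}
    (hF : F.IsHomogeneous 3)
    (α β γ : Fin n → E) (q g : MvPolynomial (Fin 2) E) (hq0 : q ≠ 0)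
    (h : aeval (fun j => q * (C (α j) * X 0 + C (β j) * X 1) + C (γ j) * g) F = 0)
    (s1 : Fc (cm (algebraMap ℂ E) (cub F)) γ = 0)
    (s2 : Dc (cm (algebraMap ℂ E) (cub F)) γ α = 0)
    (s3 : Dc (cm (algebraMap ℂ E) (cub F)) γ β = 0) (p : Fin 2 → E) :
    eval p q * Fc (cm (algebraMap ℂ E) (cub F)) (p 0 • α + p 1 • β) +
      eval p g * Dc (cm (algebraMap ℂ E) (cub F)) (p 0 • α + p 1 • β) γ = 0 := by
  classical
  obtain ⟨P, hP⟩ : ∃ P, P = cm (algebraMap ℂ (MvPolynomial (Fin 2) E)) (cub F) := ⟨_, rfl⟩
  have hPc : P = cm (C : E →+* MvPolynomial (Fin 2) E) (cm (algebraMap ℂ E) (cub F)) := by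
    rw [hP]
    rfl
  obtain ⟨l, hl⟩ : ∃ l : Fin n → MvPolynomial (Fin 2) E,
    l = fun j => C (α j) * X 0 + C (β j) * X 1 := ⟨_, rfl⟩
  obtain ⟨γ', hγ⟩ : ∃ γ' : Fin n → MvPolynomial (Fin 2) E, γ' = fun j => C (γ j) := ⟨_, rfl⟩
  have h1 : (fun j => q * (C (α j) * X 0 + C (β j) * X 1) + C (γ j) * g) = q • l + g • γ' := by
    funext j
    rw [hl, hγ]
    simp only [Pi.add_apply, Pi.smul_apply, smul_eq_mul]
    ring
  rw [h1, aeval_eq_Fc hF, ← hP, Fc_line] at h
  have hFγ : Fc P γ' = C (Fc (cm (algebraMap ℂ E) (cub F)) γ) := by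
    rw [hPc, hγ]
    exact Fc_cm C γ
  have hDγ : Dc P γ' l = C (Dc (cm (algebraMap ℂ E) (cub F)) γ α) * X 0 +
      C (Dc (cm (algebraMap ℂ E) (cub F)) γ β) * X 1 := by
    have h2 : l = (X 0 : MvPolynomial (Fin 2) E) • (fun j => (C (α j) : MvPolynomial (Fin 2) E)) +
        (X 1 : MvPolynomial (Fin 2) E) • (fun j => (C (β j) : MvPolynomial (Fin 2) E)) := by
      funext j
      rw [hl]
      simp only [Pi.add_apply, Pi.smul_apply, smul_eq_mul]
      ring
    rw [h2, Dc_add_right, Dc_smul_right, Dc_smul_right, hPc, hγ]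
    have e1 := Dc_cm (c := cm (algebraMap ℂ E) (cub F)) (C : E →+* MvPolynomial (Fin 2) E) γ α
    have e2 := Dc_cm (c := cm (algebraMap ℂ E) (cub F)) (C : E →+* MvPolynomial (Fin 2) E) γ β
    rw [e1, e2]
    ring
  rw [s1, C_0] at hFγ
  rw [s2, s3, C_0, zero_mul, zero_mul, add_zero] at hDγ
  rw [hFγ, hDγ] at h
  have h4 : q ^ 2 * (q * Fc P l + g * Dc P l γ') = 0 := by
    linear_combination h
  have h5 := (mul_eq_zero.1 h4).resolve_left (pow_ne_zero 2 hq0)
  -- evaluation at `p`
  have hev : cm (eval p : MvPolynomial (Fin 2) E →+* E) P = cm (algebraMap ℂ E) (cub F) := by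
    rw [hPc]
    funext i j k
    unfold cm
    rw [eval_C]
  have hlv : (fun j => eval p (l j)) = p 0 • α + p 1 • β := by
    funext j
    rw [hl]
    simp only [map_add, map_mul, eval_C, eval_X, Pi.add_apply, Pi.smul_apply, smul_eq_mul]
    ring
  have hγv : (fun j => eval p (γ' j)) = γ := by
    funext j
    rw [hγ]
    simp only [eval_C]
  have e1 := Fc_cm (c := P) (eval p : MvPolynomial (Fin 2) E →+* E) l
  have e2 := Dc_cm (c := P) (eval p : MvPolynomial (Fin 2) E →+* E) l γ'
  rw [hev, hlv] at e1
  rw [hev, hlv, hγv] at e2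
  rw [e1, e2, ← map_mul, ← map_mul, ← map_add, h5, map_zero]

variable {m : ℕ} {F : MvPolynomial (Fin (m+1+1)) ℂ} {L : Type u} [Field L] [Algebra ℂ L]

/-- `star_ev` for an odd point. -/
theorem star_OP (hm : 1 ≤ m) (hF : VG F) {x : Fin (m+1+1) → L} (hx : OP F x)
    (v : Fin (m+1+1) → L) (h1 : Dc (cL L F) x v = 0) (h2 : Dc (cL L F) v x = 0) :
    ∃ a : L, v = a • x := by
  have hx0 : x 0 ≠ 0 := HG_zero hF hx.1
  exact star_ev (N := m+1) (by omega) hF x hx0 (Gp_ev (N := m+1) hF.1 x hx0 hx.1)
    (by rw [fd_ev (N := m+1) x hx0]; exact hx.2) v h1 h2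

/-- Plane cubic forms over `L` in two variables. -/
theorem cub_par (hm : 1 ≤ m) (hF : VG F) (hNS : MP2619.N.NoSum.{u} F)
    (V : Fin (m+1+1) → Fin 4 → L) (lam : Fin 4 → L) (hlam : lam ≠ 0)
    (hlV : ∀ j, ∑ i, lam i * V j i = 0)
    (h0 : aeval (fun j => bf (V j)) F = 0) (p p' : Fin 2 → L)
    (hx : OP F (fun j => aeval p (bf (V j))))
    (hw : (fun j => aeval p' (bf (V j))) ≠ 0) : OP F (fun j => aeval p' (bf (V j))) := by
  classical
  obtain ⟨x, hxd⟩ : ∃ x : Fin (m+1+1) → L, x = fun j => aeval p (bf (V j)) := ⟨_, rfl⟩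
  rw [← hxd] at hx
  have hx0 := hx.ne_zero hF
  have hne : ∃ j, bf (V j) ≠ 0 := by
    by_contra hcon
    push Not at hcon
    apply hx0
    rw [hxd]
    funext j
    rw [hcon j, map_zero]
    rfl
  by_cases hcop : Cop (fun j => bf (V j))
  · obtain ⟨q, hq0, hqA, hqB⟩ := pl_quad lam
    obtain ⟨A, hA⟩ : ∃ A : Fin 4 → L, A = ![q 0, q 1, q 2, 0] := ⟨_, rfl⟩
    obtain ⟨B, hB⟩ : ∃ B : Fin 4 → L, B = ![0, q 0, q 1, q 2] := ⟨_, rfl⟩
    have hbA : bf A = qf q * X 0 := by rw [hA]; exact bf_A q
    have hbB : bf B = qf q * X 1 := by rw [hB]; exact bf_B q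
    have hlA : ∑ i, lam i * A i = 0 := by
      rw [hA, Fin.sum_univ_four]
      simp only [Matrix.cons_val_zero, Matrix.cons_val_one, Matrix.cons_val]
      linear_combination hqA
    have hlB : ∑ i, lam i * B i = 0 := by
      rw [hB, Fin.sum_univ_four]
      simp only [Matrix.cons_val_zero, Matrix.cons_val_one, Matrix.cons_val]
      linear_combination hqB
    have hqn := qf_ne q hq0
    have hqu : ¬ IsUnit (qf q) := by
      intro hu
      have h1 := not_dvd_low (h := (1 : MvPolynomial (Fin 2) L)) (qf_hom q) hqn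
        (by rw [totalDegree_one]; omega) hu.dvd
      exact one_ne_zero h1
    obtain ⟨j0, hj0⟩ : ∃ j, V j ∉ Submodule.span L (Set.range ![A, B]) := by
      by_contra hcon
      push Not at hcon
      apply hqu
      apply hcop
      intro j
      have h1 := hcon j
      rw [Submodule.mem_span_range_iff_exists_fun] at h1
      obtain ⟨c, hc⟩ := h1
      rw [Fin.sum_univ_two] at hc
      change c 0 • A + c 1 • B = V j at hc
      change qf q ∣ bf (V j)
      rw [← hc, bf_add, bf_smul, bf_smul, hbA, hbB]
      exact ⟨C (c 0) * X 0 + C (c 1) * X 1, by ring⟩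
    have hind : LinearIndependent L ![V j0, A, B] := by
      have h1 : LinearIndependent L ![A, B] := by
        rw [LinearIndependent.pair_iff]
        intro s t hst
        have h2 : (C s * X 0 + C t * X 1 : MvPolynomial (Fin 2) L) = 0 := by
          have h3 : qf q * (C s * X 0 + C t * X 1) = 0 := by
            have h4 : bf (s • A + t • B) = 0 := by
              rw [hst]
              unfold bf
              simp only [Pi.zero_apply, C_0, zero_mul, add_zero]
            rw [bf_add, bf_smul, bf_smul, hbA, hbB] at h4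
            linear_combination h4
          exact (mul_eq_zero.1 h3).resolve_left hqn
        constructor
        · have h6 := congrArg (eval ![1, 0]) h2
          simpa using h6
        · have h6 := congrArg (eval ![0, 1]) h2
          simpa using h6
      exact linearIndependent_finCons.2 ⟨h1, hj0⟩
    choose α β γ hV using fun j => pl_span lam A B (V j0) hlam hlA hlB (hlV j0) hind (V j) (hlV j)
    obtain ⟨g, hg⟩ : ∃ g, g = bf (V j0) := ⟨_, rfl⟩
    have hφ : ∀ j, bf (V j) = qf q * (C (α j) * X 0 + C (β j) * X 1) + C (γ j) * g := by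
      intro j
      rw [hV j, bf_add, bf_add, bf_smul, bf_smul, bf_smul, hbA, hbB, ← hg]
      ring
    have hrel : IsRelPrime (qf q) g := by
      intro d hd1 hd2
      apply hcop
      intro j
      change d ∣ bf (V j)
      rw [hφ j]
      exact dvd_add (hd1.mul_right _) (hd2.mul_left _)
    have h0' : aeval (fun j => qf q * (C (α j) * X 0 + C (β j) * X 1) + C (γ j) * g) F = 0 := by
      have h1 : (fun j => qf q * (C (α j) * X 0 + C (β j) * X 1) + C (γ j) * g) =
          fun j => bf (V j) := funext fun j => (hφ j).symm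
      rw [h1]
      exact h0
    obtain ⟨s1, s2, s3⟩ := plane_sing hF.1 α β γ (qf q) g (qf_hom q) hqn hrel h0'
    have hid := plane_id hF.1 α β γ (qf q) g hqn h0' s1 s2 s3
    change Fc (cL L F) γ = 0 at s1
    change Dc (cL L F) γ α = 0 at s2
    change Dc (cL L F) γ β = 0 at s3
    have hae : ∀ (z : Fin 2 → L) (f : MvPolynomial (Fin 2) L), aeval z f = eval z f :=
      fun z f => rfl
    -- the value at a point
    have hval : ∀ z : Fin 2 → L, (fun j => aeval z (bf (V j))) =
        eval z (qf q) • (z 0 • α + z 1 • β) + eval z g • γ := by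
      intro z
      funext j
      simp only [Pi.add_apply, Pi.smul_apply, smul_eq_mul]
      rw [hφ j, hae]
      simp only [map_add, map_mul, eval_X, eval_C]
      ring
    have hDl : ∀ z : Fin 2 → L, Dc (cL L F) γ (z 0 • α + z 1 • β) = 0 := by
      intro z
      rw [Dc_add_right, Dc_smul_right, Dc_smul_right, s2, s3, mul_zero, mul_zero, add_zero]
    have hxe : x = eval p (qf q) • (p 0 • α + p 1 • β) + eval p g • γ := by
      rw [hxd, hval]
    have hγ0 : γ ≠ 0 := by
      intro h
      apply hqu
      apply hcop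
      intro j
      change qf q ∣ bf (V j)
      have h2 : γ j = 0 := congrFun h j
      rw [hφ j, h2, C_0, zero_mul, add_zero]
      exact dvd_mul_right _ _
    by_cases hγx : ∃ c : L, γ = c • x
    · obtain ⟨c, hc⟩ := hγx
      have hc0 : c ≠ 0 := by
        rintro rfl
        exact hγ0 (by rw [hc, zero_smul])
      have hγO : OP F γ := by
        rw [hc]
        exact hx.smul c hc0
      have hxγ : x = c⁻¹ • γ := by
        rw [hc, smul_smul, inv_mul_cancel₀ hc0, one_smul]
      -- the direction at `p`
      obtain ⟨a, ha⟩ : ∃ a : L, p 0 • α + p 1 • β = a • γ := by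
        by_cases hqp : eval p (qf q) = 0
        · refine star_OP hm hF hγO _ (hDl p) ?_
          have h1 := hid p
          rw [hqp, zero_mul, zero_add] at h1
          refine (mul_eq_zero.1 h1).resolve_left ?_
          intro h2
          apply hx0
          rw [hxe, hqp, h2, zero_smul, zero_smul, add_zero]
        · refine ⟨(eval p (qf q))⁻¹ * (c⁻¹ - eval p g), ?_⟩
          have h1 : eval p (qf q) • (p 0 • α + p 1 • β) = (c⁻¹ - eval p g) • γ := by
            rw [sub_smul, ← hxγ, hxe]
            simp
          rw [mul_smul, ← h1, smul_smul, inv_mul_cancel₀ hqp, one_smul]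
      have hk : a * eval p (qf q) + eval p g ≠ 0 := by
        intro h
        apply hx0
        rw [hxe, ha, smul_smul, ← add_smul, mul_comm, h, zero_smul]
      -- every direction
      have hall : ∀ z : Fin 2 → L, ∃ b : L, z 0 • α + z 1 • β = b • γ := by
        intro z
        refine star_OP hm hF hγO _ (hDl z) ?_
        obtain ⟨δ, hδ⟩ : ∃ δ, δ = z 0 • α + z 1 • β := ⟨_, rfl⟩
        rw [← hδ]
        have hT : Tc (cL L F) γ δ γ = 0 := by
          rw [Tc_comm', Tc_self, hδ, hDl, mul_zero]
        have hDγγ : Dc (cL L F) γ γ = 0 := by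
          rw [Dc_self, s1, mul_zero]
        have hline : ∀ s : L, (p + s • z) 0 • α + (p + s • z) 1 • β = a • γ + s • δ := by
          intro s
          rw [← ha, hδ]
          simp only [Pi.add_apply, Pi.smul_apply, smul_eq_mul, add_smul, mul_smul, smul_add]
          abel
        have hs : ∀ s : L, s ^ 2 * (eval (p + s • z) (qf q) * (s * Fc (cL L F) δ +
            a * Dc (cL L F) δ γ) + eval (p + s • z) g * Dc (cL L F) δ γ) = 0 := by
          intro s
          have h1 := hid (p + s • z)
          change _ * Fc (cL L F) _ + _ * Dc (cL L F) _ _ = 0 at h1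
          rw [hline, Fc_line, s1] at h1
          have h2 : Dc (cL L F) (a • γ + s • δ) γ = s ^ 2 * Dc (cL L F) δ γ := by
            rw [Dc_add_left, Dc_smul_left, Dc_smul_left, hDγγ, Tc_smul_left, Tc_comm,
              Tc_smul_left, Tc_comm, hT]
            ring
          have h3 : Dc (cL L F) γ δ = 0 := by rw [hδ, hDl]
          rw [h2, h3] at h1
          linear_combination h1
        -- the polynomial in `s`
        obtain ⟨Q, hQ⟩ : ∃ Q : Polynomial L, Q = MvPolynomial.aeval
          (fun i => Polynomial.C (p i) + Polynomial.C (z i) * Polynomial.X) (qf q) := ⟨_, rfl⟩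
        obtain ⟨G, hG⟩ : ∃ G : Polynomial L, G = MvPolynomial.aeval
          (fun i => Polynomial.C (p i) + Polynomial.C (z i) * Polynomial.X) g := ⟨_, rfl⟩
        have hev : ∀ (f : MvPolynomial (Fin 2) L) (s : L), Polynomial.eval s (MvPolynomial.aeval
            (fun i => Polynomial.C (p i) + Polynomial.C (z i) * Polynomial.X) f) =
            eval (p + s • z) f := by
          intro f s
          have h1 := MvPolynomial.comp_aeval_apply (R := L)
            (fun i => (Polynomial.C (p i) + Polynomial.C (z i) * Polynomial.X : Polynomial L))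
            (Polynomial.aeval s : Polynomial L →ₐ[L] L) f
          rw [Polynomial.coe_aeval_eq_eval] at h1
          refine h1.trans ?_
          rw [hae]
          congr 2
          funext i
          simp
          ring
        have hinf : Infinite L := Infinite.of_injective _ (algebraMap ℂ L).injective
        have hpoly : Polynomial.X ^ 2 * (Q * (Polynomial.X * Polynomial.C (Fc (cL L F) δ) +
            Polynomial.C (a * Dc (cL L F) δ γ)) + G * Polynomial.C (Dc (cL L F) δ γ)) = 0 := by
          refine Polynomial.funext fun s => ?_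
          have h1 := hs s
          rw [Polynomial.eval_zero]
          simp only [Polynomial.eval_mul, Polynomial.eval_add, Polynomial.eval_pow,
            Polynomial.eval_X, Polynomial.eval_C]
          rw [hQ, hG, hev, hev]
          exact h1
        have h6 := (mul_eq_zero.1 hpoly).resolve_left (pow_ne_zero 2 Polynomial.X_ne_zero)
        have h7 := congrArg (Polynomial.eval 0) h6
        simp only [Polynomial.eval_mul, Polynomial.eval_add, Polynomial.eval_X,
          Polynomial.eval_C, zero_mul, zero_add, Polynomial.eval_zero] at h7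
        rw [hQ, hG, hev, hev, zero_smul, add_zero] at h7
        refine (mul_eq_zero.1 (?_ : (a * eval p (qf q) + eval p g) * Dc (cL L F) δ γ = 0)).resolve_left hk
        linear_combination h7
      obtain ⟨b, hb⟩ := hall p'
      have hwe := hval p'
      rw [hb, smul_smul, ← add_smul] at hwe
      rw [hwe] at hw ⊢
      exact hγO.smul _ fun h => hw (by rw [h, zero_smul])
    · push Not at hγx
      exfalso
      have hγF : aeval γ F = 0 := (aeval_eq_Fc hF.1 γ).trans s1
      have h1 := (MP2619.N.addition_law (N := m + 1) (by omega) hF hNS x hx γ hγF hγx).1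
      apply h1
      rw [← Dc_eq_sum_pderiv hF.1 γ x]
      change Dc (cL L F) γ x = 0
      rw [hxe, Dc_add_right, Dc_smul_right, Dc_smul_right, hDl, Dc_self, s1]
      ring
  · obtain ⟨g, ψ, e, he, hg0, hψ, hgψ⟩ := not_cop2 (fun j => bf (V j)) (fun j => bf_hom (V j)) hne
      hcop
    have hv : ∀ z : Fin 2 → L, (fun j => aeval z (bf (V j))) =
        aeval z g • fun j => aeval z (ψ j) := by
      intro z
      funext j
      have h1 := hgψ j
      change bf (V j) = g * ψ j at h1
      rw [h1, map_mul]
      rfl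
    have h0' : aeval ψ F = 0 := by
      have h2 := aeval_smul_hom hF.1 g ψ
      have h3 : (fun j => g * ψ j) = fun j => bf (V j) := funext fun j => (hgψ j).symm
      rw [h3, h0] at h2
      exact (mul_eq_zero.1 h2.symm).resolve_left (pow_ne_zero _ hg0)
    have hxv := hv p
    rw [← hxd] at hxv
    have hgp : aeval p g ≠ 0 := by
      intro h
      apply hx0
      rw [hxv, h, zero_smul]
    have hwv := hv p'
    rw [hwv] at hw ⊢
    have hgp' : aeval p' g ≠ 0 := by
      intro h
      apply hw
      rw [h, zero_smul]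
    refine (quad_par hm hF hNS he ψ hψ h0' p p' ?_ ?_).smul _ hgp'
    · have h1 := hx.smul (aeval p g)⁻¹ (inv_ne_zero hgp)
      rwa [hxv, smul_smul, inv_mul_cancel₀ hgp, one_smul] at h1
    · intro h
      apply hw
      rw [h, smul_zero]

end MP2619.PC
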