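import Pool.Agent.Lib.MP_2619d0_ag.PC.P2

/-!
# Chains of rational plane curves over `L`
-/

set_option autoImplicit false

namespace MP2619.PC

universe u

open MvPolynomial Pool.Agent.Lib.MP_2619d0_ag Pool.Agent.Lib.MP_2619d0_ag.T MP2619.T MP2619.R
  MP2619.CUB MP2619.Q3 MP2619.Q9

/-- `x` and `w` lie, up to a factor, on one plane curve over `L` given by binary cubic forms. -/
def Lk {n : ℕ} (F : MvPolynomial (Fin n) ℂ) {L : Type u} [Field L] [Algebra ℂ L]
    (x w : Fin n → L) : Prop :=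
  x ≠ 0 ∧ w ≠ 0 ∧ ∃ (V : Fin n → Fin 4 → L) (lam : Fin 4 → L) (p q : Fin 2 → L) (a b : L),
    lam ≠ 0 ∧ (∀ j, ∑ i, lam i * V j i = 0) ∧ aeval (fun j => bf (V j)) F = 0 ∧
      a ≠ 0 ∧ b ≠ 0 ∧ (∀ j, a * x j = eval p (bf (V j))) ∧ ∀ j, b * w j = eval q (bf (V j))

theorem Lk.symm {n : ℕ} {F : MvPolynomial (Fin n) ℂ} {L : Type u} [Field L] [Algebra ℂ L]
    {x w : Fin n → L} (h : Lk F x w) : Lk F w x := by
  obtain ⟨hx, hw, V, lam, p, q, a, b, h1, h2, h3, ha, hb, h4, h5⟩ := h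
  exact ⟨hw, hx, V, lam, q, p, b, a, h1, h2, h3, hb, ha, h5, h4⟩

/-- the points of a link are points of `X` -/
theorem Lk.zero {n : ℕ} {F : MvPolynomial (Fin n) ℂ} (hF : F.IsHomogeneous 3) {L : Type u} [Field L]
    [Algebra ℂ L] {x w : Fin n → L} (h : Lk F x w) : aeval w F = 0 := by
  obtain ⟨hx, hw, V, lam, p, q, a, b, h1, h2, h3, ha, hb, h4, h5⟩ := h
  have h6 := fc_eval (fun j => bf (V j)) h3 q
  have h7 : (fun j => aeval q (bf (V j))) = fun j => b * w j := by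
    funext j
    rw [h5 j]
    rfl
  rw [h7, aeval_smul_hom hF] at h6
  exact (mul_eq_zero.1 h6).resolve_left (pow_ne_zero 3 hb)

section

variable {m : ℕ} {F : MvPolynomial (Fin (m+1+1)) ℂ} {L : Type u} [Field L] [Algebra ℂ L]

theorem lk_par (hm : 1 ≤ m) (hF : VG F) (hNS : MP2619.N.NoSum.{u} F) {x w : Fin (m+1+1) → L}
    (h : Lk F x w) (hO : OP F x) : OP F w := by
  obtain ⟨hx, hw, V, lam, p, q, a, b, h1, h2, h3, ha, hb, h4, h5⟩ := h
  have e1 : (fun j => aeval p (bf (V j))) = a • x := by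
    funext j
    rw [Pi.smul_apply, smul_eq_mul, h4 j]
    rfl
  have e2 : (fun j => aeval q (bf (V j))) = b • w := by
    funext j
    rw [Pi.smul_apply, smul_eq_mul, h5 j]
    rfl
  have h6 := cub_par hm hF hNS V lam h1 h2 h3 p q (by rw [e1]; exact hO.smul a ha)
    (by rw [e2]; exact smul_ne_zero hb hw)
  rw [e2] at h6
  have h7 := h6.smul b⁻¹ (inv_ne_zero hb)
  rwa [smul_smul, inv_mul_cancel₀ hb, one_smul] at h7

theorem chain_par (hm : 1 ≤ m) (hF : VG F) (hNS : MP2619.N.NoSum.{u} F) {x w : Fin (m+1+1) → L}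
    (h : Relation.ReflTransGen (Lk F) x w) (hO : OP F x) : OP F w := by
  induction h with
  | refl => exact hO
  | tail _ h2 ih => exact lk_par hm hF hNS h2 ih

theorem chain_iff (hm : 1 ≤ m) (hF : VG F) (hNS : MP2619.N.NoSum.{u} F) {x w : Fin (m+1+1) → L}
    (h : Relation.ReflTransGen (Lk F) x w) : OP F x ↔ OP F w := by
  refine ⟨chain_par hm hF hNS h, ?_⟩
  have hs : Relation.ReflTransGen (Lk F) w x := by
    clear * - h
    induction h with
    | refl => exact Relation.ReflTransGen.refl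
    | tail _ h2 ih => exact Relation.ReflTransGen.head h2.symm ih
  exact chain_par hm hF hNS hs

end

/-- The index type of the data of a link. -/
abbrev Ix (n : ℕ) : Type := (Fin n ⊕ (Fin n × Fin 4)) ⊕ (Fin 4 ⊕ (Fin 2 ⊕ (Fin 2 ⊕ Fin 7)))

/-- The data of a link. -/
def dat {n : ℕ} {L : Type u} (w : Fin n → L) (V : Fin n → Fin 4 → L) (lam : Fin 4 → L)
    (p q : Fin 2 → L) (c : Fin 7 → L) : Ix n → L :=
  Sum.elim (Sum.elim w (fun ji => V ji.1 ji.2)) (Sum.elim lam (Sum.elim p (Sum.elim q c)))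

/-- A link is preserved by every specialisation of its data. -/
theorem lk_tr {n : ℕ} (F : MvPolynomial (Fin n) ℂ) {L : Type u} [Field L] [Algebra ℂ L]
    {x w : Fin n → L} (h : Lk F x w) :
    ∃ (ι : Type) (_ : Fintype ι) (P : ι → L) (J : Fin n → ι), (∀ j, P (J j) = w j) ∧
      ∀ (L1 : Type u) [Field L1] [Algebra ℂ L1] (P1 : ι → L1) (x1 : Fin n → L1),
        (∀ G : MvPolynomial (ι ⊕ Fin n) ℂ, aeval (Sum.elim P x) G = 0 →
          aeval (Sum.elim P1 x1) G = 0) → Lk F x1 (fun j => P1 (J j)) := by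
  classical
  obtain ⟨hx, hw, V, lam, p, q, a, b, h1, h2, h3, ha, hb, h4, h5⟩ := h
  obtain ⟨jx, hjx⟩ := Function.ne_iff.1 hx
  obtain ⟨jw, hjw⟩ := Function.ne_iff.1 hw
  obtain ⟨i0, hi0⟩ := Function.ne_iff.1 h1
  simp only [Pi.zero_apply] at hjx hjw hi0
  refine ⟨Ix n, inferInstance,
    dat w V lam p q ![a, b, a⁻¹, b⁻¹, (x jx)⁻¹, (w jw)⁻¹, (lam i0)⁻¹],
    fun j => Sum.inl (Sum.inl j), fun j => rfl, ?_⟩
  intro L1 _ _ P1 x1 hrel
  obtain ⟨P, hP⟩ : ∃ P, P = dat w V lam p q ![a, b, a⁻¹, b⁻¹, (x jx)⁻¹, (w jw)⁻¹, (lam i0)⁻¹] :=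
    ⟨_, rfl⟩
  rw [← hP] at hrel
  -- the coordinate functions
  obtain ⟨cw, hcw⟩ : ∃ cw : Fin n → Ix n, cw = fun j => Sum.inl (Sum.inl j) := ⟨_, rfl⟩
  obtain ⟨cV, hcV⟩ : ∃ cV : Fin n → Fin 4 → Ix n, cV = fun j i => Sum.inl (Sum.inr (j, i)) :=
    ⟨_, rfl⟩
  obtain ⟨cl, hcl⟩ : ∃ cl : Fin 4 → Ix n, cl = fun i => Sum.inr (Sum.inl i) := ⟨_, rfl⟩
  obtain ⟨cp, hcp⟩ : ∃ cp : Fin 2 → Ix n, cp = fun i => Sum.inr (Sum.inr (Sum.inl i)) := ⟨_, rfl⟩
  obtain ⟨cq, hcq⟩ : ∃ cq : Fin 2 → Ix n, cq = fun i => Sum.inr (Sum.inr (Sum.inr (Sum.inl i))) :=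
    ⟨_, rfl⟩
  obtain ⟨cc, hcc⟩ : ∃ cc : Fin 7 → Ix n, cc = fun i => Sum.inr (Sum.inr (Sum.inr (Sum.inr i))) :=
    ⟨_, rfl⟩
  have Pw : ∀ j, P (cw j) = w j := fun j => by rw [hP, hcw]; rfl
  have PV : ∀ j i, P (cV j i) = V j i := fun j i => by rw [hP, hcV]; rfl
  have Pl : ∀ i, P (cl i) = lam i := fun i => by rw [hP, hcl]; rfl
  have Pp : ∀ i, P (cp i) = p i := fun i => by rw [hP, hcp]; rfl
  have Pq : ∀ i, P (cq i) = q i := fun i => by rw [hP, hcq]; rfl
  have Pc : ∀ i, P (cc i) = (![a, b, a⁻¹, b⁻¹, (x jx)⁻¹, (w jw)⁻¹, (lam i0)⁻¹] : Fin 7 → L) i :=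
    fun i => by rw [hP, hcc]; rfl
  have Pc0 : P (cc 0) = a := Pc 0
  have Pc1 : P (cc 1) = b := Pc 1
  have Pc2 : P (cc 2) = a⁻¹ := Pc 2
  have Pc3 : P (cc 3) = b⁻¹ := Pc 3
  have Pc4 : P (cc 4) = (x jx)⁻¹ := Pc 4
  have Pc5 : P (cc 5) = (w jw)⁻¹ := Pc 5
  have Pc6 : P (cc 6) = (lam i0)⁻¹ := Pc 6
  -- products equal to one
  have hone : ∀ s t : Ix n ⊕ Fin n, Sum.elim P x s * Sum.elim P x t = 1 →
      Sum.elim P1 x1 s * Sum.elim P1 x1 t = 1 := by
    intro s t hst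
    have h6 := hrel (X s * X t - 1) (by
      rw [map_sub, map_mul, aeval_X, aeval_X, map_one, hst, sub_self])
    rw [map_sub, map_mul, aeval_X, aeval_X, map_one] at h6
    exact sub_eq_zero.1 h6
  have k0 := hone (Sum.inl (cc 0)) (Sum.inl (cc 2)) (by
    change P (cc 0) * P (cc 2) = 1
    rw [Pc0, Pc2, mul_inv_cancel₀ ha])
  have k1 := hone (Sum.inl (cc 1)) (Sum.inl (cc 3)) (by
    change P (cc 1) * P (cc 3) = 1
    rw [Pc1, Pc3, mul_inv_cancel₀ hb])
  have k2 := hone (Sum.inr jx) (Sum.inl (cc 4)) (by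
    change x jx * P (cc 4) = 1
    rw [Pc4, mul_inv_cancel₀ hjx])
  have k3 := hone (Sum.inl (cw jw)) (Sum.inl (cc 5)) (by
    change P (cw jw) * P (cc 5) = 1
    rw [Pw, Pc5, mul_inv_cancel₀ hjw])
  have k4 := hone (Sum.inl (cl i0)) (Sum.inl (cc 6)) (by
    change P (cl i0) * P (cc 6) = 1
    rw [Pl, Pc6, mul_inv_cancel₀ hi0])
  simp only [Sum.elim_inl, Sum.elim_inr] at k0 k1 k2 k3 k4
  have hne : ∀ s t : L1, s * t = 1 → s ≠ 0 := fun s t hst h => by
    rw [h, zero_mul] at hst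
    exact zero_ne_one hst
  refine ⟨fun h => hne _ _ k2 (congrFun h jx), fun h => hne _ _ k3 ?_,
    fun j i => P1 (cV j i), fun i => P1 (cl i), fun i => P1 (cp i), fun i => P1 (cq i),
    P1 (cc 0), P1 (cc 1), fun h => hne _ _ k4 (congrFun h i0), fun j => ?_, ?_, hne _ _ k0,
    hne _ _ k1, fun j => ?_, fun j => ?_⟩
  · have h6 := congrFun h jw
    rw [hcw]
    exact h6
  · -- the linear relation
    have h6 := hrel (∑ i, X (Sum.inl (cl i)) * X (Sum.inl (cV j i))) (by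
      rw [map_sum, ← h2 j]
      refine Finset.sum_congr rfl fun i _ => ?_
      rw [map_mul, aeval_X, aeval_X, Sum.elim_inl, Sum.elim_inl, Pl, PV])
    rw [map_sum] at h6
    rw [← h6]
    refine Finset.sum_congr rfl fun i _ => ?_
    rw [map_mul, aeval_X, aeval_X, Sum.elim_inl, Sum.elim_inl]
  · -- the curve lies on `X`
    obtain ⟨U, hU⟩ : ∃ U : MvPolynomial (Fin 2) (MvPolynomial (Ix n ⊕ Fin n) ℂ),
      U = aeval (fun j => C (X (Sum.inl (cV j 0))) * X 0 ^ 3 +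
        C (X (Sum.inl (cV j 1))) * (X 0 ^ 2 * X 1) + C (X (Sum.inl (cV j 2))) * (X 0 * X 1 ^ 2) +
        C (X (Sum.inl (cV j 3))) * X 1 ^ 3) F := ⟨_, rfl⟩
    have hmap : ∀ (L2 : Type u) [Field L2] [Algebra ℂ L2] (Q : Ix n ⊕ Fin n → L2),
        MvPolynomial.map (aeval Q : MvPolynomial (Ix n ⊕ Fin n) ℂ →ₐ[ℂ] L2).toRingHom U =
          aeval (fun j => bf (fun i => Q (Sum.inl (cV j i)))) F := by
      intro L2 _ _ Q
      have h7 : MvPolynomial.map (aeval Q : MvPolynomial (Ix n ⊕ Fin n) ℂ →ₐ[ℂ] L2).toRingHom U =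
          (MvPolynomial.mapAlgHom (σ := Fin 2)
            (aeval Q : MvPolynomial (Ix n ⊕ Fin n) ℂ →ₐ[ℂ] L2)) U := rfl
      rw [h7, hU, MvPolynomial.comp_aeval_apply]
      congr 1
      congr 1
      funext j
      unfold bf
      simp only [map_add, map_mul, map_pow, MvPolynomial.mapAlgHom_apply, MvPolynomial.map_C,
        MvPolynomial.map_X, RingHom.coe_coe, aeval_X]
    have h8 := hmap L (Sum.elim P x)
    have h9 : aeval (fun j => bf (fun i => Sum.elim P x (Sum.inl (cV j i)))) F = 0 := by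
      have h10 : (fun j => bf (fun i => Sum.elim P x (Sum.inl (cV j i)))) = fun j => bf (V j) := by
        funext j
        congr 1
        funext i
        rw [Sum.elim_inl, PV]
      rw [h10]
      exact h3
    rw [h9] at h8
    have h11 : MvPolynomial.map (aeval (Sum.elim P1 x1) :
        MvPolynomial (Ix n ⊕ Fin n) ℂ →ₐ[ℂ] L1).toRingHom U = 0 := by
      refine MvPolynomial.ext _ _ fun d => ?_
      rw [MvPolynomial.coeff_map, MvPolynomial.coeff_zero]
      refine hrel (coeff d U) ?_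
      have h12 := congrArg (coeff d) h8
      rw [MvPolynomial.coeff_map, MvPolynomial.coeff_zero] at h12
      exact h12
    have h13 := hmap L1 (Sum.elim P1 x1)
    rw [h11] at h13
    exact h13.symm
  · -- the first point
    have hbf : ∀ (L2 : Type u) [Field L2] [Algebra ℂ L2] (Q : Ix n ⊕ Fin n → L2),
        aeval Q (X (Sum.inl (cV j 0)) * X (Sum.inl (cp 0)) ^ 3 +
          X (Sum.inl (cV j 1)) * (X (Sum.inl (cp 0)) ^ 2 * X (Sum.inl (cp 1))) +
          X (Sum.inl (cV j 2)) * (X (Sum.inl (cp 0)) * X (Sum.inl (cp 1)) ^ 2) +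
          X (Sum.inl (cV j 3)) * X (Sum.inl (cp 1)) ^ 3 : MvPolynomial (Ix n ⊕ Fin n) ℂ) =
        eval (fun i => Q (Sum.inl (cp i))) (bf (fun i => Q (Sum.inl (cV j i)))) := by
      intro L2 _ _ Q
      unfold bf
      simp only [map_add, map_mul, map_pow, aeval_X, eval_C, eval_X]
    have h6 := hrel (X (Sum.inl (cc 0)) * X (Sum.inr j) -
        (X (Sum.inl (cV j 0)) * X (Sum.inl (cp 0)) ^ 3 +
          X (Sum.inl (cV j 1)) * (X (Sum.inl (cp 0)) ^ 2 * X (Sum.inl (cp 1))) +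
          X (Sum.inl (cV j 2)) * (X (Sum.inl (cp 0)) * X (Sum.inl (cp 1)) ^ 2) +
          X (Sum.inl (cV j 3)) * X (Sum.inl (cp 1)) ^ 3)) (by
      rw [map_sub, hbf, map_mul, aeval_X, aeval_X]
      have e1 : (fun i => Sum.elim P x (Sum.inl (cp i))) = p := by
        funext i
        rw [Sum.elim_inl, Pp]
      have e2 : (fun i => Sum.elim P x (Sum.inl (cV j i))) = V j := by
        funext i
        rw [Sum.elim_inl, PV]
      rw [e1, e2, Sum.elim_inl, Sum.elim_inr, Pc0, h4 j, sub_self])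
    rw [map_sub, hbf, map_mul, aeval_X, aeval_X] at h6
    exact sub_eq_zero.1 h6
  · -- the second point
    have hbf : ∀ (L2 : Type u) [Field L2] [Algebra ℂ L2] (Q : Ix n ⊕ Fin n → L2),
        aeval Q (X (Sum.inl (cV j 0)) * X (Sum.inl (cq 0)) ^ 3 +
          X (Sum.inl (cV j 1)) * (X (Sum.inl (cq 0)) ^ 2 * X (Sum.inl (cq 1))) +
          X (Sum.inl (cV j 2)) * (X (Sum.inl (cq 0)) * X (Sum.inl (cq 1)) ^ 2) +
          X (Sum.inl (cV j 3)) * X (Sum.inl (cq 1)) ^ 3 : MvPolynomial (Ix n ⊕ Fin n) ℂ) =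
        eval (fun i => Q (Sum.inl (cq i))) (bf (fun i => Q (Sum.inl (cV j i)))) := by
      intro L2 _ _ Q
      unfold bf
      simp only [map_add, map_mul, map_pow, aeval_X, eval_C, eval_X]
    have h6 := hrel (X (Sum.inl (cc 1)) * X (Sum.inl (cw j)) -
        (X (Sum.inl (cV j 0)) * X (Sum.inl (cq 0)) ^ 3 +
          X (Sum.inl (cV j 1)) * (X (Sum.inl (cq 0)) ^ 2 * X (Sum.inl (cq 1))) +
          X (Sum.inl (cV j 2)) * (X (Sum.inl (cq 0)) * X (Sum.inl (cq 1)) ^ 2) +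
          X (Sum.inl (cV j 3)) * X (Sum.inl (cq 1)) ^ 3)) (by
      rw [map_sub, hbf, map_mul, aeval_X, aeval_X]
      have e1 : (fun i => Sum.elim P x (Sum.inl (cq i))) = q := by
        funext i
        rw [Sum.elim_inl, Pq]
      have e2 : (fun i => Sum.elim P x (Sum.inl (cV j i))) = V j := by
        funext i
        rw [Sum.elim_inl, PV]
      rw [e1, e2, Sum.elim_inl, Sum.elim_inl, Pc1, Pw, h5 j, sub_self])
    rw [map_sub, hbf, map_mul, aeval_X, aeval_X] at h6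
    have h7 := sub_eq_zero.1 h6
    rw [hcw] at h7
    exact h7

/-- A chain of links is preserved by every specialisation of its data. -/
theorem chain_tr {n : ℕ} (F : MvPolynomial (Fin n) ℂ) {L : Type u} [Field L] [Algebra ℂ L]
    {x w : Fin n → L} (h : Relation.ReflTransGen (Lk F) x w) :
    ∃ (ι : Type) (_ : Fintype ι) (P : ι → L) (J : Fin n → ι), (∀ j, P (J j) = w j) ∧
      ∀ (L1 : Type u) [Field L1] [Algebra ℂ L1] (P1 : ι → L1) (x1 : Fin n → L1),
        (∀ G : MvPolynomial (ι ⊕ Fin n) ℂ, aeval (Sum.elim P x) G = 0 →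
          aeval (Sum.elim P1 x1) G = 0) →
          Relation.ReflTransGen (Lk F) x1 (fun j => P1 (J j)) := by
  induction h using Relation.ReflTransGen.head_induction_on with
  | refl =>
    refine ⟨Fin n, inferInstance, w, id, fun j => rfl, ?_⟩
    intro L1 _ _ P1 x1 hrel
    have h1 : (fun j => P1 (id j)) = x1 := by
      funext j
      have h2 := hrel (X (Sum.inl j) - X (Sum.inr j)) (by
        rw [map_sub, aeval_X, aeval_X, Sum.elim_inl, Sum.elim_inr, sub_self])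
      rw [map_sub, aeval_X, aeval_X, Sum.elim_inl, Sum.elim_inr] at h2
      exact sub_eq_zero.1 h2
    rw [h1]
  | @head x y hxy _ ih =>
    obtain ⟨ι1, f1, P1, J1, hJ1, H1⟩ := lk_tr F hxy
    obtain ⟨ι2, f2, P2, J2, hJ2, H2⟩ := ih
    refine ⟨ι1 ⊕ ι2, inferInstance, Sum.elim P1 P2, fun j => Sum.inr (J2 j), fun j => hJ2 j, ?_⟩
    intro L1 _ _ Q x1 hrel
    have hren : ∀ (κ : Type) (f : κ → (ι1 ⊕ ι2) ⊕ Fin n) (G : MvPolynomial κ ℂ),
        aeval (fun k => Sum.elim (Sum.elim P1 P2) x (f k)) G = 0 →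
          aeval (fun k => Sum.elim Q x1 (f k)) G = 0 := by
      intro κ f G hG
      have h1 := hrel (rename f G) (by
        rw [aeval_rename]
        exact hG)
      rw [aeval_rename] at h1
      exact h1
    have hlk := H1 L1 (fun i => Q (Sum.inl i)) x1 (fun G hG => by
      have h1 := hren _ (Sum.elim (fun i => Sum.inl (Sum.inl i)) Sum.inr) G (by
        have h2 : (fun k => Sum.elim (Sum.elim P1 P2) x
            (Sum.elim (fun i => Sum.inl (Sum.inl i)) Sum.inr k)) = Sum.elim P1 x := by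
          funext k
          rcases k with k | k <;> rfl
        rw [h2]
        exact hG)
      have h2 : (fun k => Sum.elim Q x1
          (Sum.elim (fun i => Sum.inl (Sum.inl i)) Sum.inr k)) =
          Sum.elim (fun i => Q (Sum.inl i)) x1 := by
        funext k
        rcases k with k | k <;> rfl
      rwa [h2] at h1)
    refine Relation.ReflTransGen.head hlk ?_
    refine H2 L1 (fun i => Q (Sum.inr i)) (fun j => Q (Sum.inl (J1 j))) (fun G hG => ?_)
    have h1 := hren _ (Sum.elim (fun i => Sum.inl (Sum.inr i)) (fun j => Sum.inl (Sum.inl (J1 j)))) G (by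
      have h2 : (fun k => Sum.elim (Sum.elim P1 P2) x
          (Sum.elim (fun i => Sum.inl (Sum.inr i)) (fun j => Sum.inl (Sum.inl (J1 j))) k)) =
          Sum.elim P2 y := by
        funext k
        rcases k with k | k
        · rfl
        · exact hJ1 k
      rw [h2]
      exact hG)
    have h2 : (fun k => Sum.elim Q x1
        (Sum.elim (fun i => Sum.inl (Sum.inr i)) (fun j => Sum.inl (Sum.inl (J1 j))) k)) =
        Sum.elim (fun i => Q (Sum.inr i)) (fun j => Q (Sum.inl (J1 j))) := by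
      funext k
      rcases k with k | k <;> rfl
    rwa [h2] at h1

end MP2619.PC
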