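import Pool.Agent.Lib.MP_2619d0_ag.PC.P3

/-!
# Chains of rational plane curves: the stable form, and binary forms of degree at most three
-/

set_option autoImplicit false

namespace MP2619.PC

universe u

open MvPolynomial Pool.Agent.Lib.MP_2619d0_ag Pool.Agent.Lib.MP_2619d0_ag.T MP2619.T MP2619.R
  MP2619.CUB MP2619.Q3 MP2619.Q9

/-- Binary forms of degree at most three which span a space of dimension at most three give a link. -/
theorem lk_of_forms {n : ℕ} {F : MvPolynomial (Fin n) ℂ} (hF : F.IsHomogeneous 3) {L : Type u} [Field L]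
    [Algebra ℂ L] {e : ℕ} (he : e ≤ 3) (φ : Fin n → MvPolynomial (Fin 2) L)
    (hφ : ∀ j, (φ j).IsHomogeneous e) (h0 : aeval φ F = 0)
    (hs : Module.finrank L (Submodule.span L (Set.range φ)) ≤ 3) (p q : Fin 2 → L)
    (hx : (fun j => aeval p (φ j)) ≠ 0) (hw : (fun j => aeval q (φ j)) ≠ 0) :
    Lk F (fun j => aeval p (φ j)) (fun j => aeval q (φ j)) := by
  classical
  have hcL : CharZero L := charZero_of_injective_algebraMap (algebraMap ℂ L).injective
  -- multiplication with a power of a linear form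
  have key : ∀ (l : MvPolynomial (Fin 2) L), l.IsHomogeneous 1 → ∀ p1 q1 : Fin 2 → L,
      aeval p1 l ≠ 0 → aeval q1 l ≠ 0 → (∀ j, aeval p1 (φ j) = aeval p (φ j)) →
      (∀ j, aeval q1 (φ j) = aeval q (φ j)) →
      Lk F (fun j => aeval p (φ j)) (fun j => aeval q (φ j)) := by
    intro l hl p1 q1 hp1 hq1 hp2 hq2
    obtain ⟨ψ, hψ⟩ : ∃ ψ : Fin n → MvPolynomial (Fin 2) L, ψ = fun j => l ^ (3 - e) * φ j := ⟨_, rfl⟩
    have hψh : ∀ j, (ψ j).IsHomogeneous 3 := by
      intro j
      rw [hψ]
      have h2 := (hl.pow (3 - e)).mul (hφ j)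
      have h3 : 1 * (3 - e) + e = 3 := by omega
      rwa [h3] at h2
    have hψ0 : aeval ψ F = 0 := by
      have h2 := aeval_smul_hom hF (l ^ (3 - e)) φ
      rw [hψ]
      exact h2.trans (by rw [h0, mul_zero])
    have hψs : Module.finrank L (Submodule.span L (Set.range ψ)) ≤ 3 := by
      have h1 : Submodule.span L (Set.range ψ) =
          (Submodule.span L (Set.range φ)).map (LinearMap.mulLeft L (l ^ (3 - e))) := by
        rw [Submodule.map_span, ← Set.range_comp]
        congr 1
        rw [hψ]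
        rfl
      rw [h1]
      have hfd : Module.Finite L (Submodule.span L (Set.range φ)) :=
        Module.Finite.span_of_finite L (Set.finite_range φ)
      exact (Submodule.finrank_map_le _ _).trans hs
    obtain ⟨lam, hlam, hl4⟩ := exists_lam ψ hψh hψs
    have hbf : (fun j => bf (fun i => coeff (mexp i) (ψ j))) = ψ :=
      funext fun j => (eq_bf (hψh j)).symm
    refine ⟨hx, hw, fun j i => coeff (mexp i) (ψ j), lam, p1, q1, aeval p1 l ^ (3 - e),
      aeval q1 l ^ (3 - e), hlam, hl4, ?_, pow_ne_zero _ hp1, pow_ne_zero _ hq1, fun j => ?_,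
      fun j => ?_⟩
    · rw [hbf]
      exact hψ0
    · rw [← eq_bf (hψh j)]
      have h1 : eval p1 (ψ j) = aeval p1 (ψ j) := rfl
      rw [h1, hψ, map_mul, map_pow, hp2]
    · rw [← eq_bf (hψh j)]
      have h1 : eval q1 (ψ j) = aeval q1 (ψ j) := rfl
      rw [h1, hψ, map_mul, map_pow, hq2]
  by_cases he0 : e = 0
  · subst he0
    have hc : ∀ j (z z' : Fin 2 → L), aeval z (φ j) = aeval z' (φ j) := by
      intro j z z'
      have h2 := (totalDegree_eq_zero_iff_eq_C).1 (Nat.le_zero.1 (hφ j).totalDegree_le)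
      rw [h2, aeval_C, aeval_C]
    refine key (X 0) (isHomogeneous_X L 0) ![1, 0] ![1, 0] ?_ ?_ (fun j => hc j _ _)
      (fun j => hc j _ _)
    · rw [aeval_X]; exact one_ne_zero
    · rw [aeval_X]; exact one_ne_zero
  have hpn : p ≠ 0 := by
    rintro rfl
    apply hx
    funext j
    have h2 : aeval (0 : Fin 2 → L) (φ j) = constantCoeff (φ j) := by
      rw [MvPolynomial.aeval_zero]
      rfl
    rw [h2]
    exact (hφ j).coeff_eq_zero (by simpa using Ne.symm he0)
  have hqn : q ≠ 0 := by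
    rintro rfl
    apply hw
    funext j
    have h2 : aeval (0 : Fin 2 → L) (φ j) = constantCoeff (φ j) := by
      rw [MvPolynomial.aeval_zero]
      rfl
    rw [h2]
    exact (hφ j).coeff_eq_zero (by simpa using Ne.symm he0)
  obtain ⟨i, hi⟩ := Function.ne_iff.1 hpn
  obtain ⟨k, hk⟩ := Function.ne_iff.1 hqn
  obtain ⟨t, ht1, ht2⟩ : ∃ t : L, p i + t * p k ≠ 0 ∧ q i + t * q k ≠ 0 := by
    by_cases h1 : q i = 0
    · by_cases h2 : p i + p k = 0
      · refine ⟨2, fun h => ?_, ?_⟩
        · apply hi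
          have h3 : p k = 0 := by linear_combination h - h2
          rw [h3, add_zero] at h2
          exact h2
        · rw [h1, zero_add]
          exact mul_ne_zero two_ne_zero hk
      · refine ⟨1, by rwa [one_mul], ?_⟩
        rw [h1, zero_add, one_mul]
        exact hk
    · exact ⟨0, by rwa [zero_mul, add_zero], by rwa [zero_mul, add_zero]⟩
  refine key (X i + C t * X k) ?_ p q ?_ ?_ (fun j => rfl) (fun j => rfl)
  · refine (isHomogeneous_X L i).add ?_
    have h1 := (isHomogeneous_C (Fin 2) t).mul (isHomogeneous_X L k)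
    rwa [zero_add] at h1
  · simpa using ht1
  · simpa using ht2

/-- Two proportional points are linked. -/
theorem lk_smul {n : ℕ} {F : MvPolynomial (Fin n) ℂ} (hF : F.IsHomogeneous 3) {L : Type u} [Field L]
    [Algebra ℂ L] (x : Fin n → L) (hx : x ≠ 0) (hFx : aeval x F = 0) (c : L) (hc : c ≠ 0) :
    Lk F (c • x) x := by
  classical
  refine ⟨smul_ne_zero hc hx, hx, fun j => ![x j, 0, 0, 0], ![0, 1, 0, 0], ![1, 0], ![1, 0], c⁻¹, 1,
    fun h => ?_, fun j => ?_, ?_, inv_ne_zero hc, one_ne_zero, fun j => ?_, fun j => ?_⟩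
  · have h1 := congrFun h 1
    simp at h1
  · rw [Fin.sum_univ_four]
    simp
  · have h1 : (fun j => bf (![x j, 0, 0, 0] : Fin 4 → L)) =
        fun j => (X 0 ^ 3 : MvPolynomial (Fin 2) L) * C (x j) := by
      funext j
      unfold bf
      simp
      ring
    rw [h1, aeval_smul_hom hF]
    have h2 := MvPolynomial.aeval_algebraMap_apply (R := ℂ) (A := L) (MvPolynomial (Fin 2) L) x F
    have h3 : aeval (fun j => (C (x j) : MvPolynomial (Fin 2) L)) F = 0 := by
      refine Eq.trans ?_ (h2.trans (by rw [hFx, map_zero]))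
      rfl
    rw [h3, mul_zero]
  · unfold bf
    simp
    rw [inv_mul_cancel_left₀ hc]
  · unfold bf
    simp

/-- The stable form: an odd point of `X × 𝔸^r` is not joined with a point which is not generic. -/
theorem chain_stable {m r : ℕ} (hm : 1 ≤ m) {F : MvPolynomial (Fin (m+1+1)) ℂ} (hF : VG F)
    (hNS : MP2619.N.NoSum.{u} F) {L : Type u} [Field L] [Algebra ℂ L]
    {x w : Fin (m+1+1) → L} (h : Relation.ReflTransGen (Lk F) x w) (hx : HG F x) (hw : ¬ HG F w)
    (v : Fin r → L) (hv : AlgebraicIndependent (ratioField x) v) :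
    ¬ Odd (Module.finrank (IntermediateField.adjoin (ratioField x) (Set.range v)) L) := by
  classical
  intro hodd
  have hx0 : x 0 ≠ 0 := HG_zero hF hx
  have hxn : x ≠ 0 := fun h => hx0 (congrFun h 0)
  have hFx : aeval x F = 0 := (hx 3 F hF.1).2 dvd_rfl
  have hFw : aeval w F = 0 := by
    rcases Relation.ReflTransGen.cases_tail h with h1 | ⟨y, _, h1⟩
    · rw [h1] at hw
      exact absurd hx hw
    · exact h1.zero hF.1
  obtain ⟨d, G, hG, hG0, hGw⟩ : ∃ (d : ℕ) (G : MvPolynomial (Fin (m+1+1)) ℂ), G.IsHomogeneous d ∧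
      ¬ F ∣ G ∧ aeval w G = 0 := by
    by_contra hcon
    push Not at hcon
    apply hw
    intro d G hG
    constructor
    · intro h
      by_contra hd
      exact hcon d G hG hd h
    · rintro ⟨H, rfl⟩
      rw [map_mul, hFw, zero_mul]
  -- normalise `x 0 = 1`
  obtain ⟨c, hc⟩ : ∃ c : L, c = (x 0)⁻¹ := ⟨_, rfl⟩
  have hc0 : c ≠ 0 := by rw [hc]; exact inv_ne_zero hx0
  obtain ⟨x', hx'⟩ : ∃ x' : Fin (m+1+1) → L, x' = c • x := ⟨_, rfl⟩
  have hrf : ratioField x' = ratioField x := by rw [hx']; exact ratioField_smul' x hc0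
  have hx1 : x' 0 = 1 := by
    rw [hx', Pi.smul_apply, smul_eq_mul, hc, inv_mul_cancel₀ hx0]
  have hxg : HG F x' := by rw [hx']; exact HG_smul hx c hc0
  have hch : Relation.ReflTransGen (Lk F) x' w := by
    refine Relation.ReflTransGen.head ?_ h
    rw [hx']
    exact lk_smul hF.1 x hxn hFx c hc0
  obtain ⟨ι, fι, P, J, hJ, H⟩ := chain_tr F hch
  rw [← hrf] at hodd hv
  obtain ⟨L1, fL1, aL1, x1, P1, hg1, hx10, hodd1, hrel⟩ := spec_gen x' hxg hx1 v hv hodd P
  have h1 := H L1 P1 x1 hrel
  have h2 := chain_par hm hF hNS h1 ⟨hg1, hodd1⟩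
  have h3 : aeval (fun j => P1 (J j)) G = 0 := by
    have h4 := hrel (rename (fun j => Sum.inl (J j)) G) (by
      rw [aeval_rename]
      have h5 : (Sum.elim P x' ∘ fun j => Sum.inl (J j)) = w := by
        funext j
        exact hJ j
      rw [h5]
      exact hGw)
    rw [aeval_rename] at h4
    exact h4
  exact hG0 ((h2.1 d G hG).1 h3)

end MP2619.PC
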