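import Pool.Agent.Lib.MP_2619d0_ag.PC.P6

/-!
# Rational curves of any degree over `L` without triple zeros in the limits: specialisation
-/

set_option autoImplicit false

namespace MP2619.PC

universe u

open MvPolynomial Pool.Agent.Lib.MP_2619d0_ag Pool.Agent.Lib.MP_2619d0_ag.T MP2619.T MP2619.R
  MP2619.CUB MP2619.Q3 MP2619.Q9

/-- The binary form of degree `e` with the coefficients `v`. -/
noncomputable def nf {R : Type*} [CommRing R] {e : ℕ} (v : Fin (e + 1) → R) : MvPolynomial (Fin 2) R :=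
  ∑ k, C (v k) * (X 0 ^ (e - (k : ℕ)) * X 1 ^ (k : ℕ))

/-- No complex limit of the family of binary forms with the coefficients `V` has a common zero of
multiplicity three. -/
def NTc {n e : ℕ} {L : Type u} [Field L] [Algebra ℂ L] (V : Fin n → Fin (e + 1) → L) : Prop :=
  ∀ D : Fin n → Fin (e + 1) → ℂ, D ≠ 0 →
    (∀ (g : MvPolynomial (Fin n × Fin (e + 1)) ℂ) (d : ℕ), g.IsHomogeneous d →
      aeval (fun jk => V jk.1 jk.2) g = 0 → aeval (fun jk => D jk.1 jk.2) g = 0) →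
    ∀ l : MvPolynomial (Fin 2) ℂ, l.IsHomogeneous 1 → l ≠ 0 → ¬ ∀ j, l ^ 3 ∣ nf (D j)

/-- `x` and `w` lie, up to a factor, on one rational curve over `L` no limit of which has a triple zero. -/
def LkN {n : ℕ} (F : MvPolynomial (Fin n) ℂ) {L : Type u} [Field L] [Algebra ℂ L]
    (x w : Fin n → L) : Prop :=
  x ≠ 0 ∧ w ≠ 0 ∧ ∃ (e : ℕ) (V : Fin n → Fin (e + 1) → L) (p q : Fin 2 → L) (a b : L),
    NTc V ∧ aeval (fun j => nf (V j)) F = 0 ∧
      a ≠ 0 ∧ b ≠ 0 ∧ (∀ j, a * x j = eval p (nf (V j))) ∧ ∀ j, b * w j = eval q (nf (V j))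

/-- The index type of the data of a link. -/
abbrev Ixn (n e : ℕ) : Type := (Fin n ⊕ (Fin n × Fin (e + 1))) ⊕ (Fin 2 ⊕ (Fin 2 ⊕ Fin 6))

/-- The data of a link. -/
def datn {n e : ℕ} {L : Type u} (w : Fin n → L) (V : Fin n → Fin (e + 1) → L)
    (p q : Fin 2 → L) (c : Fin 6 → L) : Ixn n e → L :=
  Sum.elim (Sum.elim w (fun ji => V ji.1 ji.2)) (Sum.elim p (Sum.elim q c))

/-- A link is preserved by every specialisation of its data. -/
theorem lkN_tr {n : ℕ} (F : MvPolynomial (Fin n) ℂ) {L : Type u} [Field L] [Algebra ℂ L]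
    {x w : Fin n → L} (h : LkN F x w) :
    ∃ (ι : Type) (_ : Fintype ι) (P : ι → L) (J : Fin n → ι), (∀ j, P (J j) = w j) ∧
      ∀ (L1 : Type u) [Field L1] [Algebra ℂ L1] (P1 : ι → L1) (x1 : Fin n → L1),
        (∀ G : MvPolynomial (ι ⊕ Fin n) ℂ, aeval (Sum.elim P x) G = 0 →
          aeval (Sum.elim P1 x1) G = 0) → LkN F x1 (fun j => P1 (J j)) := by
  classical
  obtain ⟨hx, hw, e, V, p, q, a, b, h1, h3, ha, hb, h4, h5⟩ := h
  obtain ⟨jx, hjx⟩ := Function.ne_iff.1 hx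
  obtain ⟨jw, hjw⟩ := Function.ne_iff.1 hw
  simp only [Pi.zero_apply] at hjx hjw
  refine ⟨Ixn n e, inferInstance,
    datn w V p q ![a, b, a⁻¹, b⁻¹, (x jx)⁻¹, (w jw)⁻¹],
    fun j => Sum.inl (Sum.inl j), fun j => rfl, ?_⟩
  intro L1 _ _ P1 x1 hrel
  obtain ⟨P, hP⟩ : ∃ P, P = datn w V p q ![a, b, a⁻¹, b⁻¹, (x jx)⁻¹, (w jw)⁻¹] :=
    ⟨_, rfl⟩
  rw [← hP] at hrel
  -- the coordinate functions
  obtain ⟨cw, hcw⟩ : ∃ cw : Fin n → Ixn n e, cw = fun j => Sum.inl (Sum.inl j) := ⟨_, rfl⟩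
  obtain ⟨cV, hcV⟩ : ∃ cV : Fin n → Fin (e + 1) → Ixn n e,
      cV = fun j i => Sum.inl (Sum.inr (j, i)) := ⟨_, rfl⟩
  obtain ⟨cp, hcp⟩ : ∃ cp : Fin 2 → Ixn n e, cp = fun i => Sum.inr (Sum.inl i) := ⟨_, rfl⟩
  obtain ⟨cq, hcq⟩ : ∃ cq : Fin 2 → Ixn n e, cq = fun i => Sum.inr (Sum.inr (Sum.inl i)) :=
    ⟨_, rfl⟩
  obtain ⟨cc, hcc⟩ : ∃ cc : Fin 6 → Ixn n e, cc = fun i => Sum.inr (Sum.inr (Sum.inr i)) :=
    ⟨_, rfl⟩
  have Pw : ∀ j, P (cw j) = w j := fun j => by rw [hP, hcw]; rfl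
  have PV : ∀ j i, P (cV j i) = V j i := fun j i => by rw [hP, hcV]; rfl
  have Pp : ∀ i, P (cp i) = p i := fun i => by rw [hP, hcp]; rfl
  have Pq : ∀ i, P (cq i) = q i := fun i => by rw [hP, hcq]; rfl
  have Pc : ∀ i, P (cc i) = (![a, b, a⁻¹, b⁻¹, (x jx)⁻¹, (w jw)⁻¹] : Fin 6 → L) i :=
    fun i => by rw [hP, hcc]; rfl
  have Pc0 : P (cc 0) = a := Pc 0
  have Pc1 : P (cc 1) = b := Pc 1
  have Pc2 : P (cc 2) = a⁻¹ := Pc 2
  have Pc3 : P (cc 3) = b⁻¹ := Pc 3
  have Pc4 : P (cc 4) = (x jx)⁻¹ := Pc 4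
  have Pc5 : P (cc 5) = (w jw)⁻¹ := Pc 5
  -- products equal to one
  have hone : ∀ s t : Ixn n e ⊕ Fin n, Sum.elim P x s * Sum.elim P x t = 1 →
      Sum.elim P1 x1 s * Sum.elim P1 x1 t = 1 := by
    intro s t hst
    have h6 := hrel (X s * X t - 1) (by
      rw [map_sub, map_mul, aeval_X, aeval_X, map_one, hst, sub_self])
    rw [map_sub, map_mul, aeval_X, aeval_X, map_one] at h6
    exact sub_eq_zero.1 h6
  have k0 := hone (Sum.inl (cc 0)) (Sum.inl (cc 2)) (by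
    change P (cc 0) * P (cc 2) = 1
    rw [Pc0, Pc2, mul_inv_cancel₀ ha])
  have k1 := hone (Sum.inl (cc 1)) (Sum.inl (cc 3)) (by
    change P (cc 1) * P (cc 3) = 1
    rw [Pc1, Pc3, mul_inv_cancel₀ hb])
  have k2 := hone (Sum.inr jx) (Sum.inl (cc 4)) (by
    change x jx * P (cc 4) = 1
    rw [Pc4, mul_inv_cancel₀ hjx])
  have k3 := hone (Sum.inl (cw jw)) (Sum.inl (cc 5)) (by
    change P (cw jw) * P (cc 5) = 1
    rw [Pw, Pc5, mul_inv_cancel₀ hjw])
  simp only [Sum.elim_inl, Sum.elim_inr] at k0 k1 k2 k3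
  have hne : ∀ s t : L1, s * t = 1 → s ≠ 0 := fun s t hst h => by
    rw [h, zero_mul] at hst
    exact zero_ne_one hst
  refine ⟨fun h => hne _ _ k2 (congrFun h jx), fun h => hne _ _ k3 ?_, e,
    fun j i => P1 (cV j i), fun i => P1 (cp i), fun i => P1 (cq i),
    P1 (cc 0), P1 (cc 1), ?_, ?_, hne _ _ k0,
    hne _ _ k1, fun j => ?_, fun j => ?_⟩
  · have h6 := congrFun h jw
    rw [hcw]
    exact h6
  · -- no triple zeros
    intro D hD hDg l hl hl0
    refine h1 D hD (fun g d hg hgV => hDg g d hg ?_) l hl hl0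
    have h6 := hrel (rename (fun jk : Fin n × Fin (e + 1) => Sum.inl (cV jk.1 jk.2)) g) (by
      rw [aeval_rename]
      have h7 : (Sum.elim P x ∘ fun jk : Fin n × Fin (e + 1) => Sum.inl (cV jk.1 jk.2)) =
          fun jk => V jk.1 jk.2 := by
        funext jk
        exact PV jk.1 jk.2
      rw [h7]
      exact hgV)
    rw [aeval_rename] at h6
    exact h6
  · -- the curve lies on `X`
    obtain ⟨U, hU⟩ : ∃ U : MvPolynomial (Fin 2) (MvPolynomial (Ixn n e ⊕ Fin n) ℂ),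
      U = aeval (fun j => nf (fun i => (X (Sum.inl (cV j i)) :
        MvPolynomial (Ixn n e ⊕ Fin n) ℂ))) F := ⟨_, rfl⟩
    have hmap : ∀ (L2 : Type u) [Field L2] [Algebra ℂ L2] (Q : Ixn n e ⊕ Fin n → L2),
        MvPolynomial.map (aeval Q : MvPolynomial (Ixn n e ⊕ Fin n) ℂ →ₐ[ℂ] L2).toRingHom U =
          aeval (fun j => nf (fun i => Q (Sum.inl (cV j i)))) F := by
      intro L2 _ _ Q
      have h7 : MvPolynomial.map (aeval Q : MvPolynomial (Ixn n e ⊕ Fin n) ℂ →ₐ[ℂ] L2).toRingHom U =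
          (MvPolynomial.mapAlgHom (σ := Fin 2)
            (aeval Q : MvPolynomial (Ixn n e ⊕ Fin n) ℂ →ₐ[ℂ] L2)) U := rfl
      rw [h7, hU, MvPolynomial.comp_aeval_apply]
      congr 1
      congr 1
      funext j
      unfold nf
      simp only [map_sum, map_mul, map_pow, MvPolynomial.mapAlgHom_apply, MvPolynomial.map_C,
        MvPolynomial.map_X, RingHom.coe_coe, aeval_X]
    have h8 := hmap L (Sum.elim P x)
    have h9 : aeval (fun j => nf (fun i => Sum.elim P x (Sum.inl (cV j i)))) F = 0 := by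
      have h10 : (fun j => nf (fun i => Sum.elim P x (Sum.inl (cV j i)))) = fun j => nf (V j) := by
        funext j
        congr 1
        funext i
        rw [Sum.elim_inl, PV]
      rw [h10]
      exact h3
    rw [h9] at h8
    have h11 : MvPolynomial.map (aeval (Sum.elim P1 x1) :
        MvPolynomial (Ixn n e ⊕ Fin n) ℂ →ₐ[ℂ] L1).toRingHom U = 0 := by
      refine MvPolynomial.ext _ _ fun d => ?_
      rw [MvPolynomial.coeff_map, MvPolynomial.coeff_zero]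
      refine hrel (coeff d U) ?_
      have h12 := congrArg (coeff d) h8
      rw [MvPolynomial.coeff_map, MvPolynomial.coeff_zero] at h12
      exact h12
    have h13 := hmap L1 (Sum.elim P1 x1)
    rw [h11] at h13
    exact h13.symm
  · -- the first point
    have hbf : ∀ (L2 : Type u) [Field L2] [Algebra ℂ L2] (Q : Ixn n e ⊕ Fin n → L2),
        aeval Q (∑ i : Fin (e + 1), X (Sum.inl (cV j i)) * (X (Sum.inl (cp 0)) ^ (e - (i : ℕ)) *
          X (Sum.inl (cp 1)) ^ (i : ℕ)) : MvPolynomial (Ixn n e ⊕ Fin n) ℂ) =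
        eval (fun i => Q (Sum.inl (cp i))) (nf (fun i => Q (Sum.inl (cV j i)))) := by
      intro L2 _ _ Q
      unfold nf
      simp only [map_sum, map_mul, map_pow, aeval_X, eval_C, eval_X]
    have h6 := hrel (X (Sum.inl (cc 0)) * X (Sum.inr j) -
        ∑ i : Fin (e + 1), X (Sum.inl (cV j i)) * (X (Sum.inl (cp 0)) ^ (e - (i : ℕ)) *
          X (Sum.inl (cp 1)) ^ (i : ℕ))) (by
      rw [map_sub, hbf, map_mul, aeval_X, aeval_X]
      have e1 : (fun i => Sum.elim P x (Sum.inl (cp i))) = p := by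
        funext i
        rw [Sum.elim_inl, Pp]
      have e2 : (fun i => Sum.elim P x (Sum.inl (cV j i))) = V j := by
        funext i
        rw [Sum.elim_inl, PV]
      rw [e1, e2, Sum.elim_inl, Sum.elim_inr, Pc0, h4 j, sub_self])
    rw [map_sub, hbf, map_mul, aeval_X, aeval_X] at h6
    exact sub_eq_zero.1 h6
  · -- the second point
    have hbf : ∀ (L2 : Type u) [Field L2] [Algebra ℂ L2] (Q : Ixn n e ⊕ Fin n → L2),
        aeval Q (∑ i : Fin (e + 1), X (Sum.inl (cV j i)) * (X (Sum.inl (cq 0)) ^ (e - (i : ℕ)) *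
          X (Sum.inl (cq 1)) ^ (i : ℕ)) : MvPolynomial (Ixn n e ⊕ Fin n) ℂ) =
        eval (fun i => Q (Sum.inl (cq i))) (nf (fun i => Q (Sum.inl (cV j i)))) := by
      intro L2 _ _ Q
      unfold nf
      simp only [map_sum, map_mul, map_pow, aeval_X, eval_C, eval_X]
    have h6 := hrel (X (Sum.inl (cc 1)) * X (Sum.inl (cw j)) -
        ∑ i : Fin (e + 1), X (Sum.inl (cV j i)) * (X (Sum.inl (cq 0)) ^ (e - (i : ℕ)) *
          X (Sum.inl (cq 1)) ^ (i : ℕ))) (by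
      rw [map_sub, hbf, map_mul, aeval_X, aeval_X]
      have e1 : (fun i => Sum.elim P x (Sum.inl (cq i))) = q := by
        funext i
        rw [Sum.elim_inl, Pq]
      have e2 : (fun i => Sum.elim P x (Sum.inl (cV j i))) = V j := by
        funext i
        rw [Sum.elim_inl, PV]
      rw [e1, e2, Sum.elim_inl, Sum.elim_inl, Pc1, Pw, h5 j, sub_self])
    rw [map_sub, hbf, map_mul, aeval_X, aeval_X] at h6
    have h7 := sub_eq_zero.1 h6
    rw [hcw] at h7
    exact h7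

end MP2619.PC
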