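import Pool.Agent.Lib.MP_2619d0_ag.PC.P7

/-!
# The parity of the degree modulo secants, rational plane curves, and rational curves without triple zeros
-/

set_option autoImplicit false

namespace MP2619.PC

universe u

open MvPolynomial Pool.Agent.Lib.MP_2619d0_ag Pool.Agent.Lib.MP_2619d0_ag.T MP2619.T MP2619.R
  MP2619.CUB MP2619.Q3 MP2619.Q9

theorem LkN.symm {n : ℕ} {F : MvPolynomial (Fin n) ℂ} {L : Type u} [Field L] [Algebra ℂ L]
    {x w : Fin n → L} (h : LkN F x w) : LkN F w x := by
  obtain ⟨hx, hw, e, V, p, q, a, b, h1, h3, ha, hb, h4, h5⟩ := h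
  exact ⟨hw, hx, e, V, q, p, b, a, h1, h3, hb, ha, h5, h4⟩

/-- The relations: points which are not generic, secants, rational plane curves, rational curves without triple
zeros in the limits. -/
def rels2 {n : ℕ} (F : MvPolynomial (Fin n) ℂ) (L : Type u) [Field L] [Algebra ℂ L] :
    Set ((Fin n → L) →₀ ZMod 2) :=
  {a | (∃ x, aeval x F = 0 ∧ ¬ HG F x ∧ a = Finsupp.single x 1) ∨
    (∃ x y, LinearIndependent L ![x, y] ∧ aeval x F = 0 ∧ aeval y F = 0 ∧
      a = Finsupp.single x 1 + Finsupp.single y 1 + Finsupp.single (MP2619.N.tp F y x) 1) ∨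
    ∃ x w, (Lk F x w ∨ LkN F x w) ∧ a = Finsupp.single x 1 + Finsupp.single w 1}

theorem par_rels2 {m : ℕ} (hm : 1 ≤ m) {F : MvPolynomial (Fin (m+1+1)) ℂ} (hF : VG F)
    (hNS : MP2619.N.NoSum.{u} F)
    (hN : ∀ (L : Type u) [Field L] [Algebra ℂ L] (x w : Fin (m+1+1) → L), LkN F x w →
      OP F x → OP F w) {L : Type u} [Field L] [Algebra ℂ L]
    {a : (Fin (m+1+1) → L) →₀ ZMod 2} (ha : a ∈ Submodule.span (ZMod 2) (rels2 F L)) :
    par F L a = 0 := by
  classical
  have h : Submodule.span (ZMod 2) (rels2 F L) ≤ LinearMap.ker (par F L) := by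
    rw [Submodule.span_le]
    have h11 : (1 : ZMod 2) + 1 = 0 := by decide
    rintro a (⟨x, hx, hg, rfl⟩ | ⟨x, y, hl, hx, hy, rfl⟩ | ⟨x, w, hl, rfl⟩)
    · rw [SetLike.mem_coe, LinearMap.mem_ker, par_single, if_neg fun h => hg h.1]
    · rw [SetLike.mem_coe, LinearMap.mem_ker, map_add, map_add, par_single, par_single, par_single]
      have h1 := MP2619.N.collinear_law (N := m + 1) (by omega) hF hNS y x hl hx hy
      change OP F (MP2619.N.tp F y x) ↔ ¬ (OP F x ↔ OP F y) at h1
      by_cases h2 : OP F x <;> by_cases h3 : OP F y <;>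
        by_cases h4 : OP F (MP2619.N.tp F y x)
      · exact absurd (h1.1 h4) (by tauto)
      · rw [if_pos h2, if_pos h3, if_neg h4, add_zero, h11]
      · rw [if_pos h2, if_neg h3, if_pos h4, add_zero, h11]
      · exact absurd (h1.2 (by tauto)) h4
      · rw [if_neg h2, if_pos h3, if_pos h4, zero_add, h11]
      · exact absurd (h1.2 (by tauto)) h4
      · exact absurd (h1.1 h4) (by tauto)
      · rw [if_neg h2, if_neg h3, if_neg h4, add_zero, add_zero]
    · rw [SetLike.mem_coe, LinearMap.mem_ker, map_add, par_single, par_single]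
      by_cases h2 : OP F x
      · rw [if_pos h2, if_pos (hl.elim (fun hl => lk_par hm hF hNS hl h2) fun hl => hN L x w hl h2),
          h11]
      · rw [if_neg h2, if_neg fun h => h2 (hl.elim (fun hl => lk_par hm hF hNS hl.symm h)
          fun hl => hN L w x hl.symm h), add_zero]
  exact LinearMap.mem_ker.1 (h ha)

/-- The relations between the points of a finite set are preserved by specialisation. -/
theorem span_tr2 {n : ℕ} (F : MvPolynomial (Fin n) ℂ) {L : Type u} [Field L] [Algebra ℂ L]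
    {a : (Fin n → L) →₀ ZMod 2} (ha : a ∈ Submodule.span (ZMod 2) (rels2 F L)) :
    ∃ (ι : Type) (_ : Fintype ι) (P : ι → L) (b : (Fin n → ι) →₀ ZMod 2),
      Finsupp.mapDomain (fun J j => P (J j)) b = a ∧
      ∀ (L1 : Type u) [Field L1] [Algebra ℂ L1] (P1 : ι → L1),
        (∀ G : MvPolynomial ι ℂ, aeval P G = 0 → aeval P1 G = 0) →
          Finsupp.mapDomain (fun J j => P1 (J j)) b ∈ Submodule.span (ZMod 2) (rels2 F L1) := by
  classical
  induction ha using Submodule.span_induction with
  | mem a ha =>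
    rcases ha with ⟨x, hx, hg, rfl⟩ | ⟨x, y, hl, hx, hy, rfl⟩ | ⟨x, w, hl, rfl⟩
    · -- a point which is not generic
      obtain ⟨d, G, hG, hG0, hGx⟩ : ∃ (d : ℕ) (G : MvPolynomial (Fin n) ℂ), G.IsHomogeneous d ∧
          ¬ F ∣ G ∧ aeval x G = 0 := by
        by_contra hcon
        push Not at hcon
        apply hg
        intro d G hG
        constructor
        · intro h
          by_contra hd
          exact hcon d G hG hd h
        · rintro ⟨H, rfl⟩
          rw [map_mul, hx, zero_mul]
      refine ⟨Fin n, inferInstance, x, Finsupp.single id 1, ?_, ?_⟩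
      · rw [Finsupp.mapDomain_single]
        rfl
      · intro L1 _ _ P1 hrel
        rw [Finsupp.mapDomain_single]
        refine Submodule.subset_span (Or.inl ⟨P1, hrel F hx, fun h => ?_, rfl⟩)
        exact hG0 ((h d G hG).1 (hrel G hGx))
    · -- a secant
      obtain ⟨i, j, hm'⟩ := minor_of_lin hl
      obtain ⟨z, hzd⟩ : ∃ z, z = MP2619.N.tp F y x := ⟨_, rfl⟩
      rw [← hzd]
      refine ⟨(Fin n ⊕ Fin n) ⊕ (Fin n ⊕ Unit), inferInstance,
        Sum.elim (Sum.elim x y) (Sum.elim z (fun _ => (x i * y j - x j * y i)⁻¹)),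
        Finsupp.single (fun t => Sum.inl (Sum.inl t)) 1 +
          Finsupp.single (fun t => Sum.inl (Sum.inr t)) 1 +
          Finsupp.single (fun t => Sum.inr (Sum.inl t)) 1, ?_, ?_⟩
      · rw [Finsupp.mapDomain_add, Finsupp.mapDomain_add, Finsupp.mapDomain_single,
          Finsupp.mapDomain_single, Finsupp.mapDomain_single]
        rfl
      · intro L1 _ _ Q hrel
        rw [Finsupp.mapDomain_add, Finsupp.mapDomain_add, Finsupp.mapDomain_single,
          Finsupp.mapDomain_single, Finsupp.mapDomain_single]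
        obtain ⟨x1, hx1⟩ : ∃ x1 : Fin n → L1, x1 = fun t => Q (Sum.inl (Sum.inl t)) := ⟨_, rfl⟩
        obtain ⟨y1, hy1⟩ : ∃ y1 : Fin n → L1, y1 = fun t => Q (Sum.inl (Sum.inr t)) := ⟨_, rfl⟩
        have hQ : Q = Sum.elim (Sum.elim x1 y1) (fun t => Q (Sum.inr t)) := by
          funext t
          rw [hx1, hy1]
          rcases t with (t | t) | t <;> rfl
        have hx1F : aeval x1 F = 0 := by
          have h1 := hrel (rename (fun t => Sum.inl (Sum.inl t)) F) (by
            rw [aeval_rename]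
            exact hx)
          rw [aeval_rename] at h1
          rw [hx1]
          exact h1
        have hy1F : aeval y1 F = 0 := by
          have h1 := hrel (rename (fun t => Sum.inl (Sum.inr t)) F) (by
            rw [aeval_rename]
            exact hy)
          rw [aeval_rename] at h1
          rw [hy1]
          exact h1
        have hmin : x1 i * y1 j - x1 j * y1 i ≠ 0 := by
          intro h0
          have h1 := hrel ((X (Sum.inl (Sum.inl i)) * X (Sum.inl (Sum.inr j)) -
            X (Sum.inl (Sum.inl j)) * X (Sum.inl (Sum.inr i))) * X (Sum.inr (Sum.inr ())) - 1) (by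
            simp only [map_sub, map_mul, aeval_X, map_one, Sum.elim_inl, Sum.elim_inr]
            rw [mul_inv_cancel₀ hm', sub_self])
          rw [hQ] at h1
          simp only [map_sub, map_mul, aeval_X, map_one, Sum.elim_inl, Sum.elim_inr] at h1
          rw [h0, zero_mul, zero_sub] at h1
          exact one_ne_zero (neg_eq_zero.1 h1)
        have hz1 : (fun t => Q (Sum.inr (Sum.inl t))) = MP2619.N.tp F y1 x1 := by
          funext t
          have hu : ∀ (M : Type u) [Field M] [Algebra ℂ M] (a b : Fin n → M)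
              (c : Fin n ⊕ Unit → M),
              aeval (Sum.elim (Sum.elim a b) c) (X (Sum.inr (Sum.inl t)) -
                ((∑ s, X (Sum.inl (Sum.inr s)) *
                  rename (fun t => Sum.inl (Sum.inl t)) (pderiv s F)) * X (Sum.inl (Sum.inr t)) -
                (∑ s, X (Sum.inl (Sum.inl s)) *
                  rename (fun t => Sum.inl (Sum.inr t)) (pderiv s F)) * X (Sum.inl (Sum.inl t))) :
                  MvPolynomial ((Fin n ⊕ Fin n) ⊕ (Fin n ⊕ Unit)) ℂ) =
                c (Sum.inl t) - MP2619.N.tp F b a t := by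
            intro M _ _ a b c
            unfold MP2619.N.tp
            simp only [map_sub, map_mul, map_sum, aeval_X, aeval_rename, Sum.elim_inl,
              Sum.elim_inr]
            rfl
          have h1 := hrel _ (by
            rw [hu]
            rw [Sum.elim_inl, hzd, sub_self])
          rw [hQ, hu] at h1
          exact sub_eq_zero.1 h1
        refine Submodule.subset_span (Or.inr (Or.inl ⟨x1, y1, lin_of_minor hmin, hx1F, hy1F, ?_⟩))
        rw [hz1, hx1, hy1]
    · -- a plane curve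
      obtain ⟨ι2, f2, P2, J2, hJ2, H2⟩ : ∃ (ι : Type) (_ : Fintype ι) (P : ι → L) (J : Fin n → ι),
          (∀ j, P (J j) = w j) ∧ ∀ (L1 : Type u) [Field L1] [Algebra ℂ L1] (P1 : ι → L1)
            (x1 : Fin n → L1), (∀ G : MvPolynomial (ι ⊕ Fin n) ℂ, aeval (Sum.elim P x) G = 0 →
              aeval (Sum.elim P1 x1) G = 0) →
                (Lk F x1 (fun j => P1 (J j)) ∨ LkN F x1 (fun j => P1 (J j))) := by
        rcases hl with hl | hl
        · obtain ⟨ι, f, P, J, hJ, H⟩ := lk_tr F hl
          exact ⟨ι, f, P, J, hJ, fun L1 _ _ P1 x1 h => Or.inl (H L1 P1 x1 h)⟩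
        · obtain ⟨ι, f, P, J, hJ, H⟩ := lkN_tr F hl
          exact ⟨ι, f, P, J, hJ, fun L1 _ _ P1 x1 h => Or.inr (H L1 P1 x1 h)⟩
      refine ⟨Fin n ⊕ ι2, inferInstance, Sum.elim x P2,
        Finsupp.single (fun t => Sum.inl t) 1 + Finsupp.single (fun t => Sum.inr (J2 t)) 1, ?_, ?_⟩
      · rw [Finsupp.mapDomain_add, Finsupp.mapDomain_single, Finsupp.mapDomain_single]
        have h2 : (fun j => (Sum.elim x P2 : Fin n ⊕ ι2 → L) (Sum.inr (J2 j))) = w := funext hJ2
        rw [h2]
        rfl
      · intro L1 _ _ Q hrel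
        rw [Finsupp.mapDomain_add, Finsupp.mapDomain_single, Finsupp.mapDomain_single]
        refine Submodule.subset_span (Or.inr (Or.inr ⟨_, _,
          H2 L1 (fun t => Q (Sum.inr t)) (fun j => Q (Sum.inl j)) (fun G hG => ?_), rfl⟩))
        have h1 := hrel (rename (Sum.elim (fun t => Sum.inr t) (fun t => Sum.inl t)) G) (by
          rw [aeval_rename]
          have h2 : ((Sum.elim x P2 : Fin n ⊕ ι2 → L) ∘
              Sum.elim (fun t => Sum.inr t) (fun t => Sum.inl t)) = Sum.elim P2 x := by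
            funext t
            rcases t with t | t <;> rfl
          rw [h2]
          exact hG)
        rw [aeval_rename] at h1
        have h2 : (Q ∘ Sum.elim (fun t => Sum.inr t) (fun t => Sum.inl t)) =
            Sum.elim (fun t => Q (Sum.inr t)) (fun j => Q (Sum.inl j)) := by
          funext t
          rcases t with t | t <;> rfl
        rwa [h2] at h1
  | zero =>
    refine ⟨Fin n, inferInstance, fun _ => 0, 0, Finsupp.mapDomain_zero, fun L1 _ _ P1 _ => ?_⟩
    rw [Finsupp.mapDomain_zero]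
    exact Submodule.zero_mem _
  | add a a' _ _ ih1 ih2 =>
    obtain ⟨ι1, f1, P1, b1, hb1, H1⟩ := ih1
    obtain ⟨ι2, f2, P2, b2, hb2, H2⟩ := ih2
    refine ⟨ι1 ⊕ ι2, inferInstance, Sum.elim P1 P2,
      Finsupp.mapDomain (fun J j => Sum.inl (J j)) b1 +
        Finsupp.mapDomain (fun J j => Sum.inr (J j)) b2, ?_, ?_⟩
    · rw [Finsupp.mapDomain_add, ← Finsupp.mapDomain_comp, ← Finsupp.mapDomain_comp, ← hb1, ← hb2]
      rfl
    · intro L1 _ _ Q hrel
      rw [Finsupp.mapDomain_add, ← Finsupp.mapDomain_comp, ← Finsupp.mapDomain_comp]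
      refine Submodule.add_mem _ (H1 L1 (fun t => Q (Sum.inl t)) fun G hG => ?_)
        (H2 L1 (fun t => Q (Sum.inr t)) fun G hG => ?_)
      · have h1 := hrel (rename Sum.inl G) (by
          rw [aeval_rename]
          exact hG)
        rw [aeval_rename] at h1
        exact h1
      · have h1 := hrel (rename Sum.inr G) (by
          rw [aeval_rename]
          exact hG)
        rw [aeval_rename] at h1
        exact h1
  | smul c a _ ih =>
    obtain ⟨ι1, f1, P1, b1, hb1, H1⟩ := ih
    refine ⟨ι1, f1, P1, c • b1, ?_, ?_⟩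
    · rw [Finsupp.mapDomain_smul, hb1]
    · intro L1 _ _ Q hrel
      rw [Finsupp.mapDomain_smul]
      exact Submodule.smul_mem _ _ (H1 L1 Q hrel)

/-- The stable form: the class of an odd point of `X × 𝔸^r` is not zero. -/
theorem span_stable2 {m r : ℕ} (hm : 1 ≤ m) {F : MvPolynomial (Fin (m+1+1)) ℂ} (hF : VG F)
    (hNS : MP2619.N.NoSum.{u} F)
    (hN : ∀ (L : Type u) [Field L] [Algebra ℂ L] (x w : Fin (m+1+1) → L), LkN F x w →
      OP F x → OP F w) {L : Type u} [Field L] [Algebra ℂ L]
    {x : Fin (m+1+1) → L} (h : Finsupp.single x 1 ∈ Submodule.span (ZMod 2) (rels2 F L))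
    (hx : HG F x) (v : Fin r → L) (hv : AlgebraicIndependent (ratioField x) v) :
    ¬ Odd (Module.finrank (IntermediateField.adjoin (ratioField x) (Set.range v)) L) := by
  classical
  intro hodd
  have hx0 : x 0 ≠ 0 := HG_zero hF hx
  have hxn : x ≠ 0 := fun h => hx0 (congrFun h 0)
  have hFx : aeval x F = 0 := (hx 3 F hF.1).2 dvd_rfl
  obtain ⟨c, hc⟩ : ∃ c : L, c = (x 0)⁻¹ := ⟨_, rfl⟩
  have hc0 : c ≠ 0 := by rw [hc]; exact inv_ne_zero hx0
  obtain ⟨x', hx'⟩ : ∃ x' : Fin (m+1+1) → L, x' = c • x := ⟨_, rfl⟩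
  have hrf : ratioField x' = ratioField x := by rw [hx']; exact ratioField_smul' x hc0
  have hx1 : x' 0 = 1 := by
    rw [hx', Pi.smul_apply, smul_eq_mul, hc, inv_mul_cancel₀ hx0]
  have hxg : HG F x' := by rw [hx']; exact HG_smul hx c hc0
  have hg : Finsupp.single x' (1 : ZMod 2) ∈ Submodule.span (ZMod 2) (rels2 F L) := by
    have h1 : Finsupp.single x' (1 : ZMod 2) + Finsupp.single x 1 ∈
        Submodule.span (ZMod 2) (rels2 F L) :=
      Submodule.subset_span (Or.inr (Or.inr ⟨x', x, by
        rw [hx']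
        exact Or.inl (lk_smul hF.1 x hxn hFx c hc0), rfl⟩))
    have h2 := Submodule.sub_mem _ h1 h
    rwa [add_sub_cancel_right] at h2
  obtain ⟨ι, fι, P, b, hb, H⟩ := span_tr2 F hg
  rw [← hrf] at hodd hv
  obtain ⟨L1, fL1, aL1, x1, P1, hg1, hx10, hodd1, hrel⟩ := spec_gen x' hxg hx1 v hv hodd P
  have h1 : Finsupp.mapDomain (fun J j => P1 (J j)) b ∈ Submodule.span (ZMod 2) (rels2 F L1) :=
    H L1 P1 fun G hG => by
      have h2 := hrel (rename Sum.inl G) (by
        rw [aeval_rename]
        exact hG)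
      rw [aeval_rename] at h2
      exact h2
  -- the map on points
  have hwd : ∀ J J' : Fin (m+1+1) → ι, (fun j => P (J j)) = (fun j => P (J' j)) →
      (fun j => P1 (J j)) = fun j => P1 (J' j) := by
    intro J J' hJJ
    funext j
    have h3 := hrel (X (Sum.inl (J j)) - X (Sum.inl (J' j))) (by
      rw [map_sub, aeval_X, aeval_X, Sum.elim_inl, Sum.elim_inl]
      exact sub_eq_zero.2 (congrFun hJJ j))
    rw [map_sub, aeval_X, aeval_X, Sum.elim_inl, Sum.elim_inl] at h3
    exact sub_eq_zero.1 h3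
  obtain ⟨g, hgd⟩ : ∃ g : (Fin (m+1+1) → L) → (Fin (m+1+1) → L1),
      ∀ J : Fin (m+1+1) → ι, g (fun j => P (J j)) = fun j => P1 (J j) := by
    refine ⟨fun y => if hy : ∃ J : Fin (m+1+1) → ι, (fun j => P (J j)) = y then
      fun j => P1 (hy.choose j) else 0, fun J => ?_⟩
    have hy : ∃ J' : Fin (m+1+1) → ι, (fun j => P (J' j)) = fun j => P (J j) := ⟨J, rfl⟩
    exact (dif_pos hy).trans (hwd _ _ hy.choose_spec)
  have h2 : Finsupp.mapDomain (fun J j => P1 (J j)) b = Finsupp.single (g x') (1 : ZMod 2) := by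
    have h3 : (fun (J : Fin (m+1+1) → ι) j => P1 (J j)) = g ∘ fun J j => P (J j) := by
      funext J
      exact (hgd J).symm
    rw [h3, Finsupp.mapDomain_comp, hb, Finsupp.mapDomain_single]
  -- the point `x'`
  obtain ⟨J0, hJ0⟩ : ∃ J : Fin (m+1+1) → ι, (fun j => P (J j)) = x' := by
    have h3 : x' ∈ (Finsupp.mapDomain (fun (J : Fin (m+1+1) → ι) j => P (J j)) b).support := by
      rw [hb, Finsupp.mem_support_iff, Finsupp.single_eq_same]
      exact one_ne_zero
    obtain ⟨J, _, hJ⟩ := Finset.mem_image.1 (Finsupp.mapDomain_support h3)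
    exact ⟨J, hJ⟩
  have h4 : g x' = x1 := by
    rw [← hJ0, hgd]
    funext j
    have h3 := hrel (X (Sum.inl (J0 j)) - X (Sum.inr j)) (by
      rw [map_sub, aeval_X, aeval_X, Sum.elim_inl, Sum.elim_inr]
      exact sub_eq_zero.2 (congrFun hJ0 j))
    rw [map_sub, aeval_X, aeval_X, Sum.elim_inl, Sum.elim_inr] at h3
    exact sub_eq_zero.1 h3
  rw [h2, h4] at h1
  have h5 := par_rels2 hm hF hNS hN h1
  rw [par_single, if_pos ⟨hg1, hodd1⟩] at h5
  exact one_ne_zero h5

end MP2619.PC
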