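import Pool.Agent.Lib.MP_2619d0_ag.PC.P8
import Pool.Agent.Lib.MP_2619d0_ag.U.NDefs
import Mathlib.Algebra.Polynomial.Homogenize

/-!
# Rational curves of any degree without triple zeros in the limits: change of the parameter
-/

set_option autoImplicit false

namespace MP2619.PC

universe u

open MvPolynomial Pool.Agent.Lib.MP_2619d0_ag Pool.Agent.Lib.MP_2619d0_ag.T MP2619.T MP2619.R
  MP2619.CUB MP2619.Q3 MP2619.Q9

section

variable {R : Type*} [CommRing R]

theorem nf_hom {e : ℕ} (v : Fin (e + 1) → R) : (nf v).IsHomogeneous e := by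
  unfold nf
  refine IsHomogeneous.sum _ _ _ fun k _ => ?_
  have h1 := (isHomogeneous_C (Fin 2) (v k)).mul
    (((isHomogeneous_X R (0 : Fin 2)).pow (e - (k : ℕ))).mul
      ((isHomogeneous_X R (1 : Fin 2)).pow (k : ℕ)))
  have h2 : 0 + (1 * (e - (k : ℕ)) + 1 * (k : ℕ)) = e := by
    have := k.2
    omega
  rwa [h2] at h1

/-- the exponent of the coefficient `k` -/
noncomputable def nexp (e k : ℕ) : Fin 2 →₀ ℕ := Finsupp.single 0 (e - k) + Finsupp.single 1 k

theorem nexp_0 (e k : ℕ) : nexp e k 0 = e - k := by simp [nexp]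

theorem nexp_1 (e k : ℕ) : nexp e k 1 = k := by simp [nexp]

theorem coeff_term (e k : ℕ) (d : Fin 2 →₀ ℕ) (c : R) :
    coeff d (C c * (X 0 ^ (e - k) * X 1 ^ k) : MvPolynomial (Fin 2) R) =
      if nexp e k = d then c else 0 := by
  classical
  have h1 : (C c * (X 0 ^ (e - k) * X 1 ^ k) : MvPolynomial (Fin 2) R) =
      monomial (nexp e k) c := by
    rw [X_pow_eq_monomial, X_pow_eq_monomial, monomial_mul, C_mul_monomial, one_mul, mul_one]
    rfl
  rw [h1, coeff_monomial]

theorem coeff_nf {e : ℕ} (v : Fin (e + 1) → R) (k : Fin (e + 1)) :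
    coeff (nexp e k) (nf v) = v k := by
  classical
  unfold nf
  rw [coeff_sum, Finset.sum_eq_single k]
  · rw [coeff_term, if_pos rfl]
  · intro b _ hb
    rw [coeff_term, if_neg]
    intro h
    apply hb
    have h1 := congrArg (fun f => f 1) h
    simp only [nexp_1] at h1
    exact Fin.ext h1
  · intro h
    exact absurd (Finset.mem_univ _) h

/-- a binary form is given by its coefficients -/
theorem eq_nf {e : ℕ} {f : MvPolynomial (Fin 2) R} (hf : f.IsHomogeneous e) :
    f = nf (fun k : Fin (e + 1) => coeff (nexp e k) f) := by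
  classical
  ext d
  by_cases hd : d.degree = e
  · have hd' : d 0 + d 1 = e := by
      rw [← hd, Finsupp.degree_eq_sum, Fin.sum_univ_two]
    obtain ⟨k, hk⟩ : ∃ k : Fin (e + 1), nexp e k = d := by
      refine ⟨⟨d 1, by omega⟩, ?_⟩
      ext i
      fin_cases i
      · change nexp e (d 1) 0 = d 0
        rw [nexp_0]
        omega
      · change nexp e (d 1) 1 = d 1
        rw [nexp_1]
    rw [← hk, coeff_nf]
  · rw [hf.coeff_eq_zero hd, (nf_hom _).coeff_eq_zero hd]

theorem nf_eq_zero {e : ℕ} {v : Fin (e + 1) → R} : nf v = 0 ↔ v = 0 := by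
  constructor
  · intro h
    funext k
    rw [← coeff_nf v k, h, coeff_zero]
    rfl
  · rintro rfl
    simp [nf]

end

section

variable {R : Type*} [CommRing R]

/-- the substitution `(X 0, X 1 + t X 0)` -/
noncomputable def sh (t : R) : MvPolynomial (Fin 2) R →ₐ[R] MvPolynomial (Fin 2) R :=
  aeval ![X 0, X 1 + C t * X 0]

theorem sh_0 (t : R) : sh t (X 0) = X 0 := by
  unfold sh
  rw [aeval_X]
  rfl

theorem sh_1 (t : R) : sh t (X 1) = X 1 + C t * X 0 := by
  unfold sh
  rw [aeval_X]
  rfl

theorem sh_C (t c : R) : sh t (C c) = C c := by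
  unfold sh
  rw [aeval_C]
  rfl

theorem sh_sh (t : R) (f : MvPolynomial (Fin 2) R) : sh (-t) (sh t f) = f := by
  have h : (sh (-t)).comp (sh t) = AlgHom.id R _ := by
    apply MvPolynomial.algHom_ext
    intro i
    fin_cases i
    · change sh (-t) (sh t (X 0)) = X 0
      rw [sh_0, sh_0]
    · change sh (-t) (sh t (X 1)) = X 1
      rw [sh_1, map_add, map_mul, sh_1, sh_0, sh_C, C_neg]
      ring
  exact DFunLike.congr_fun h f

theorem sh_hom (t : R) {e : ℕ} {f : MvPolynomial (Fin 2) R} (hf : f.IsHomogeneous e) :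
    (sh t f).IsHomogeneous e := by
  have h := IsHomogeneous.aeval (hf) ![(X 0 : MvPolynomial (Fin 2) R), X 1 + C t * X 0] (n := 1)
    (fun i => by
      fin_cases i
      · exact isHomogeneous_X R 0
      · refine (isHomogeneous_X R 1).add ?_
        have h1 := (isHomogeneous_C (Fin 2) t).mul (isHomogeneous_X R (0 : Fin 2))
        rwa [zero_add] at h1)
  rw [one_mul] at h
  exact h

/-- the homogenisation as a sum -/
theorem homog_eq (P : Polynomial R) (e : ℕ) : P.homogenize e =
    ∑ i ∈ Finset.range (e + 1), C (P.coeff i) * (X 0 ^ i * X 1 ^ (e - i)) := by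
  unfold Polynomial.homogenize
  rw [Finset.Nat.sum_antidiagonal_eq_sum_range_succ
    (fun a b => (monomial (Finsupp.update (Finsupp.single 0 a) 1 b) (P.coeff a) :
      MvPolynomial (Fin 2) R))]
  refine Finset.sum_congr rfl fun i hi => ?_
  rw [← Polynomial.homogenize_X_pow (R := R) (m := i) (n := e) (by
      have := Finset.mem_range.1 hi
      omega), Polynomial.X_pow_eq_monomial, Polynomial.homogenize_monomial (by
      have := Finset.mem_range.1 hi
      omega), C_mul_monomial, mul_one]

end

/-- the matrix of the substitution -/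
noncomputable def Mx (e : ℕ) (t : ℂ) (k i : ℕ) : ℂ :=
  coeff (nexp e k) (sh t (X 0 ^ i * X 1 ^ (e - i)))

theorem sh_map {R : Type*} [CommRing R] [Algebra ℂ R] (t : ℂ) (f : MvPolynomial (Fin 2) ℂ) :
    sh (algebraMap ℂ R t) (map (algebraMap ℂ R) f) = map (algebraMap ℂ R) (sh t f) := by
  induction f using MvPolynomial.induction_on with
  | C a => rw [map_C, sh_C, sh_C, map_C]
  | add p q hp hq => rw [map_add, map_add, hp, hq, map_add, map_add]
  | mul_X p i hp =>
    rw [map_mul, map_mul, hp, map_mul, map_mul, map_X]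
    congr 1
    fin_cases i
    · change sh _ (X 0) = map _ (sh t (X 0))
      rw [sh_0, sh_0, map_X]
    · change sh _ (X 1) = map _ (sh t (X 1))
      rw [sh_1, sh_1, map_add, map_mul, map_X, map_X, map_C]

theorem coeff_sh {R : Type*} [CommRing R] [Algebra ℂ R] (e : ℕ) (t : ℂ) (P : Polynomial R) (k : ℕ) :
    coeff (nexp e k) (sh (algebraMap ℂ R t) (P.homogenize e)) =
      ∑ i ∈ Finset.range (e + 1), algebraMap ℂ R (Mx e t k i) * P.coeff i := by
  rw [homog_eq, map_sum, coeff_sum]
  refine Finset.sum_congr rfl fun i _ => ?_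
  have h1 : (X 0 ^ i * X 1 ^ (e - i) : MvPolynomial (Fin 2) R) =
      map (algebraMap ℂ R) (X 0 ^ i * X 1 ^ (e - i)) := by
    rw [map_mul, map_pow, map_pow, map_X, map_X]
  rw [map_mul, sh_C, h1, sh_map, coeff_C_mul, coeff_map, mul_comm]
  rfl

/-- the relation after a constant change of the parameter -/
noncomputable def gtr {n : ℕ} (e : ℕ) (t : ℂ) (g : MvPolynomial (Fin n × Fin (e + 1)) ℂ) :
    MvPolynomial (ℕ × Fin n) ℂ :=
  aeval (fun jk : Fin n × Fin (e + 1) => ∑ i ∈ Finset.range (e + 1),
    (C (Mx e t jk.2 i) * X (i, jk.1) : MvPolynomial (ℕ × Fin n) ℂ)) g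

theorem gtr_hom {n : ℕ} (e : ℕ) (t : ℂ) (g : MvPolynomial (Fin n × Fin (e + 1)) ℂ) {d : ℕ}
    (hd : g.IsHomogeneous d) : (gtr e t g).IsHomogeneous d := by
  have h := IsHomogeneous.aeval hd (fun jk : Fin n × Fin (e + 1) =>
    ∑ i ∈ Finset.range (e + 1), (C (Mx e t jk.2 i) * X (i, jk.1) : MvPolynomial (ℕ × Fin n) ℂ))
    (n := 1) (fun jk => by
      refine IsHomogeneous.sum _ _ _ fun i _ => ?_
      have h1 := (isHomogeneous_C (ℕ × Fin n) (Mx e t jk.2 i)).mul
        (isHomogeneous_X ℂ (i, jk.1))
      rwa [zero_add] at h1)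
  rw [one_mul] at h
  exact h

theorem gtr_eval {n : ℕ} (e : ℕ) (t : ℂ) (g : MvPolynomial (Fin n × Fin (e + 1)) ℂ) {R : Type*}
    [Field R] [Algebra ℂ R] (C : Fin n → Polynomial R) :
    aeval (MP2619.Q6.co C) (gtr e t g) = aeval (fun jk : Fin n × Fin (e + 1) =>
      coeff (nexp e jk.2) (sh (algebraMap ℂ R t) ((C jk.1).homogenize e))) g := by
  unfold gtr
  rw [MvPolynomial.comp_aeval_apply]
  congr 2
  funext jk
  rw [coeff_sh, map_sum]
  refine Finset.sum_congr rfl fun i _ => ?_
  rw [map_mul, aeval_C, aeval_X]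
  rfl

/-- a constant change of the parameter and the limits -/
theorem ntc_of {n e : ℕ} {L : Type u} [Field L] [Algebra ℂ L] (V : Fin n → Fin (e + 1) → L)
    (hV : NTc V) (t : ℂ) (C : Fin n → Polynomial L)
    (hC : ∀ j, sh (algebraMap ℂ L t) ((C j).homogenize e) = nf (V j)) :
    MP2619.Q6.NTC e C := by
  classical
  intro D hDd hD hrel
  obtain ⟨D', hD'⟩ : ∃ D' : Fin n → Fin (e + 1) → ℂ,
      D' = fun j (k : Fin (e + 1)) => coeff (nexp e k) (sh t ((D j).homogenize e)) := ⟨_, rfl⟩
  have hnf : ∀ j, nf (D' j) = sh t ((D j).homogenize e) := by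
    intro j
    rw [hD']
    exact (eq_nf (sh_hom t (Polynomial.isHomogeneous_homogenize _))).symm
  have hback : ∀ j, sh (-t) (nf (D' j)) = (D j).homogenize e := by
    intro j
    rw [hnf, sh_sh]
  have hD'0 : D' ≠ 0 := by
    intro h
    apply hD
    funext j
    refine Polynomial.eq_zero_of_homogenize_eq_zero (hDd j) ?_
    rw [← hback j, h]
    have h1 : nf ((0 : Fin n → Fin (e + 1) → ℂ) j) = 0 := nf_eq_zero.2 rfl
    rw [h1, map_zero]
  have hcube := hV D' hD'0 (fun g d hg hgV => by
    have h1 : aeval (MP2619.Q6.co C) (gtr e t g) = 0 := by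
      rw [gtr_eval]
      have h2 : (fun jk : Fin n × Fin (e + 1) =>
          coeff (nexp e jk.2) (sh (algebraMap ℂ L t) ((C jk.1).homogenize e))) =
          fun jk => V jk.1 jk.2 := by
        funext jk
        rw [hC, coeff_nf]
      rw [h2]
      exact hgV
    have h2 := hrel (gtr e t g) d (gtr_hom e t g hg) h1
    rw [gtr_eval] at h2
    have h3 : (fun jk : Fin n × Fin (e + 1) =>
        coeff (nexp e jk.2) (sh (algebraMap ℂ ℂ t) ((D jk.1).homogenize e))) =
        fun jk => D' jk.1 jk.2 := by
      funext jk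
      rw [hD']
      rfl
    rw [h3] at h2
    exact h2)
  have hcub : ∀ (a : Polynomial ℂ), a.natDegree ≤ 1 → a.homogenize 1 ≠ 0 → 3 ≤ e →
      (∀ j, ∃ E : Polynomial ℂ, E.natDegree ≤ e - 3 ∧
        (D j).homogenize e = a.homogenize 1 ^ 3 * E.homogenize (e - 3)) → False := by
    intro a ha ha0 _ h
    refine hcube (sh t (a.homogenize 1)) (sh_hom t (Polynomial.isHomogeneous_homogenize _))
      (fun h0 => ha0 ?_) fun j => ?_
    · rw [← sh_sh t (a.homogenize 1), h0, map_zero]
    · obtain ⟨E, _, hE⟩ := h j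
      rw [hnf, hE, map_mul, map_pow]
      exact dvd_mul_right _ _
  have hlow : e < 3 → ∃ l ≤ 2, l ≤ e ∧ ∃ i, (D i).coeff (e - l) ≠ 0 := by
    intro h3
    by_contra hcon
    push Not at hcon
    apply hD
    funext j
    ext k
    change (D j).coeff k = 0
    by_cases hk : k ≤ e
    · have h1 := hcon (e - k) (by omega) (by omega) j
      have h2 : e - (e - k) = k := by omega
      rwa [h2] at h1
    · exact Polynomial.coeff_eq_zero_of_natDegree_lt (by have := hDd j; omega)
  refine ⟨fun s => ?_, ?_⟩
  · by_contra hcon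
    push Not at hcon
    have hdv : ∀ j, (Polynomial.X - Polynomial.C s) ^ 3 ∣ D j := by
      intro j
      have h1 : (Polynomial.X : Polynomial ℂ) ^ 3 ∣ Polynomial.taylor s (D j) := by
        rw [Polynomial.X_pow_dvd_iff]
        intro l hl
        exact hcon l (by omega) j
      obtain ⟨E, hE⟩ := h1
      refine ⟨Polynomial.taylor (-s) E, ?_⟩
      have h2 := congrArg (Polynomial.taylor (-s)) hE
      rw [Polynomial.taylor_taylor, neg_add_cancel, Polynomial.taylor_zero,
        Polynomial.taylor_mul, Polynomial.taylor_pow, Polynomial.taylor_X] at h2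
      rw [h2, map_neg, sub_eq_add_neg]
    obtain ⟨j0, hj0⟩ := Function.ne_iff.1 hD
    have hj0' : D j0 ≠ 0 := hj0
    have h3e : 3 ≤ e := by
      obtain ⟨E, hE⟩ := hdv j0
      have hE0 : E ≠ 0 := by
        rintro rfl
        rw [mul_zero] at hE
        exact hj0' hE
      have h1 := hDd j0
      rw [hE, ((Polynomial.monic_X_sub_C s).pow 3).natDegree_mul' hE0,
        (Polynomial.monic_X_sub_C s).natDegree_pow, Polynomial.natDegree_X_sub_C] at h1
      omega
    refine hcub (Polynomial.X - Polynomial.C s) (Polynomial.natDegree_X_sub_C s).le ?_ h3e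
      fun j => ?_
    · rw [Ne, Polynomial.homogenize_eq_zero_iff (Polynomial.natDegree_X_sub_C s).le]
      exact Polynomial.X_sub_C_ne_zero s
    · obtain ⟨E, hE⟩ := hdv j
      have hEd : E.natDegree ≤ e - 3 := by
        by_cases hE0 : E = 0
        · rw [hE0, Polynomial.natDegree_zero]
          omega
        · have h1 := hDd j
          rw [hE, ((Polynomial.monic_X_sub_C s).pow 3).natDegree_mul' hE0,
            (Polynomial.monic_X_sub_C s).natDegree_pow, Polynomial.natDegree_X_sub_C] at h1
          omega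
      refine ⟨E, hEd, ?_⟩
      have h1 : ((Polynomial.X - Polynomial.C s) ^ 3 : Polynomial ℂ) =
          (Polynomial.X - Polynomial.C s) * ((Polynomial.X - Polynomial.C s) *
            (Polynomial.X - Polynomial.C s)) := by ring
      have hd1 : (Polynomial.X - Polynomial.C s).natDegree ≤ 1 :=
        (Polynomial.natDegree_X_sub_C s).le
      have h2 : ((Polynomial.X - Polynomial.C s) ^ 3 : Polynomial ℂ).homogenize 3 =
          (Polynomial.X - Polynomial.C s).homogenize 1 ^ 3 := by
        have h3 := Polynomial.homogenize_mul (Polynomial.X - Polynomial.C s)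
          ((Polynomial.X - Polynomial.C s) * (Polynomial.X - Polynomial.C s)) hd1
          (n := 2) (Polynomial.natDegree_mul_le.trans (by omega))
        have h4 := Polynomial.homogenize_mul (Polynomial.X - Polynomial.C s)
          (Polynomial.X - Polynomial.C s) hd1 hd1
        rw [h1]
        change Polynomial.homogenize _ (1 + 2) = _
        rw [h3]
        change _ * Polynomial.homogenize _ (1 + 1) = _
        rw [h4]
        ring
      have h5 := Polynomial.homogenize_mul ((Polynomial.X - Polynomial.C s) ^ 3) E (m := 3)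
        (n := e - 3) ?_ hEd
      · have h6 : 3 + (e - 3) = e := by omega
        rw [h6, ← hE, h2] at h5
        exact h5
      · exact Polynomial.natDegree_pow_le.trans (by rw [Polynomial.natDegree_X_sub_C])
  · by_cases h3 : e < 3
    · exact hlow h3
    by_contra hcon
    push Not at hcon
    have hc : ∀ j k, e - 3 < k → (D j).coeff k = 0 := by
      intro j k hk
      by_cases hke : k ≤ e
      · have h1 := hcon (e - k) (by omega) (by omega) j
        have h2 : e - (e - k) = k := by omega
        rwa [h2] at h1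
      · exact Polynomial.coeff_eq_zero_of_natDegree_lt (by have := hDd j; omega)
    refine hcub 1 (by rw [Polynomial.natDegree_one]; omega) ?_ (by omega) fun j => ⟨D j, ?_, ?_⟩
    · rw [Polynomial.homogenize_one, pow_one]
      exact X_ne_zero _
    · rw [Polynomial.natDegree_le_iff_coeff_eq_zero]
      exact fun k hk => hc j k hk
    · rw [Polynomial.homogenize_one, pow_one]
      have h5 := Polynomial.homogenize_mul (1 : Polynomial ℂ) (D j) (m := 3) (n := e - 3)
        (by rw [Polynomial.natDegree_one]; omega)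
        (by
          rw [Polynomial.natDegree_le_iff_coeff_eq_zero]
          exact fun k hk => hc j k hk)
      have h6 : 3 + (e - 3) = e := by omega
      rw [h6, one_mul, Polynomial.homogenize_one] at h5
      exact h5

end MP2619.PC
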